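import Pool.Agent.K3h99.WF.Red

/-!
# Algebra-valued points of weighted complete intersections with given values of all sections
-/

set_option autoImplicit false

namespace Pool.Agent.K3h99.WF

open MvPolynomial Pool.Agent.H39R2.Fuj Pool.Agent.R920.WC
open Pool.Agent.H61.Fu (comp prod_single lt_of_ne_single unitV exists_ratio)

variable {N : ℕ} {κ : Type*} {B : Type*} [CommRing B] [Algebra ℂ B]

/-- the data: weights `a`, degrees `d`, equations `f`, and a pure power `x_i ^ u_i` in `f_{J i}` for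
each weight `a_i > 1` -/
structure Sys (a : Fin N → ℕ) (d : κ → ℕ) (f : κ → MvPolynomial (Fin N) ℂ) (J : Fin N → κ)
    (u : Fin N → ℕ) : Prop where
  ha : ∀ i, 0 < a i
  hcop : ∀ i k, i ≠ k → Nat.Coprime (a i) (a k)
  hd : ∀ j, 0 < d j
  hf : ∀ j, IsWeightedHomogeneous a (f j) (d j)
  hu : ∀ i, 1 < a i → u i * a i = d (J i)
  hJ : ∀ i, 1 < a i → coeff (Finsupp.single i (u i)) (f (J i)) ≠ 0

/-- the values of the sections at a point `y` with values in `B` are those at `v` -/
structure Rel (a : Fin N → ℕ) (e : ℕ) (f : κ → MvPolynomial (Fin N) ℂ) (v : Fin N → ℂ)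
    (y : Fin N → B) : Prop where
  hs : ∀ s, IsWeightedHomogeneous a s e → aeval y s = algebraMap ℂ B (eval v s)
  hfv : ∀ j, eval v (f j) = 0
  hfy : ∀ j, aeval y (f j) = 0

variable {a : Fin N → ℕ} {d : κ → ℕ} {e : ℕ} {f : κ → MvPolynomial (Fin N) ℂ}
  {J : Fin N → κ} {u : Fin N → ℕ}

/-- linear coordinates -/
theorem finish (S : Sys a d f J u) (v : Fin N → ℂ) (y : Fin N → B)
    (hfv : ∀ j, eval v (f j) = 0) (hfy : ∀ j, aeval y (f j) = 0) (T : B)
    (h : ∀ l, y l = T ^ a l * algebraMap ℂ B (v l) ∨ (1 < a l ∧ u l = 1)) :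
    ∀ l, y l = T ^ a l * algebraMap ℂ B (v l) := by
  have key : ∀ n, ∀ l, a l = n → y l = T ^ a l * algebraMap ℂ B (v l) := by
    intro n
    induction n using Nat.strong_induction_on with
    | _ n ih =>
      intro l hl
      rcases h l with h1 | ⟨h1, h2⟩
      · exact h1
      · have h3 := S.hu l h1
        have h4 := S.hJ l h1
        rw [h2] at h3 h4
        have h6 := comp (f (J l)) v y (hfv _) (hfy _) _ h4 (T ^ a l) (by
          intro m hm hne
          have hw := S.hf (J l) (mem_support_iff.1 hm)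
          have hml : m l < 1 := lt_of_ne_single S.ha hw h3 hne
          rw [weight_eq, ← h3, one_mul] at hw
          have h7 : ∀ i, m i ≠ 0 → a i < a l := by
            intro i hi
            have hle : m i * a i ≤ a l := by
              rw [← hw]
              exact Finset.single_le_sum (f := fun x => m x * a x)
                (fun x _ => Nat.zero_le _) (Finset.mem_univ i)
            have h8 : 1 * a i ≤ m i * a i := Nat.mul_le_mul_right _ (Nat.one_le_iff_ne_zero.2 hi)
            rcases Nat.lt_or_ge (a i) (a l) with h9 | h9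
            · exact h9
            · exfalso
              have h10 : a i = a l := by omega
              have h11 : i ≠ l := by
                rintro rfl
                omega
              have h12 := S.hcop i l h11
              rw [h10] at h12
              have := Nat.coprime_self (a l) |>.1 h12
              omega
          have h8 : T ^ a l = ∏ i, (T ^ a i) ^ m i := by
            rw [← hw, ← Finset.prod_pow_eq_pow_sum]
            exact Finset.prod_congr rfl fun i _ => by rw [← pow_mul, mul_comm]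
          rw [h8, ← Finset.prod_mul_distrib]
          refine Finset.prod_congr rfl fun i _ => ?_
          by_cases hi : m i = 0
          · rw [hi, pow_zero, pow_zero, pow_zero, mul_one]
          · rw [ih (a i) (hl ▸ h7 i hi) i rfl, mul_pow])
        rw [prod_single, prod_single, pow_one, pow_one] at h6
        exact h6
  exact fun l => key (a l) l rfl

variable {v : Fin N → ℂ} {y : Fin N → B}

theorem Rel.monoC (H : Rel a e f v y) (C : Finset (Fin N)) (m : Fin N → ℕ) (l : Fin N) (r : ℕ)
    (h : ∑ k ∈ C, m k * a k + r * a l = e) :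
    (∏ k ∈ C, y k ^ m k) * y l ^ r =
      (∏ k ∈ C, algebraMap ℂ B (v k) ^ m k) * algebraMap ℂ B (v l) ^ r := by
  have h1 : IsWeightedHomogeneous a ((∏ k ∈ C, X k ^ m k) * X l ^ r : MvPolynomial (Fin N) ℂ)
      e := by
    rw [← h]
    exact (IsWeightedHomogeneous.prod C _ _ (fun k _ => hom_pow a k (m k))).mul (hom_pow a l r)
  have h2 := H.hs _ h1
  simpa [map_prod] using h2

/-- a coordinate of weight one does not vanish -/
theorem Rel.weight_one (S : Sys a d f J u) (H : Rel a e f v y) {i : Fin N} (hi : v i ≠ 0)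
    (hai : a i = 1) (he : 1 ≤ e) (hoth : ∀ l, 1 < a l → 1 < u l → a l ≤ e) :
    ∃ T : Bˣ, ∀ l, y l = (T : B) ^ a l * algebraMap ℂ B (v l) := by
  have hm : ∀ (l : Fin N) (r : ℕ), r * a l ≤ e →
      y i ^ (e - r * a l) * y l ^ r =
        algebraMap ℂ B (v i) ^ (e - r * a l) * algebraMap ℂ B (v l) ^ r := by
    intro l r hr
    have := H.monoC {i} (fun _ => e - r * a l) l r (by
      rw [Finset.sum_singleton, hai]
      omega)
    simpa using this
  have h0 : y i ^ e = algebraMap ℂ B (v i) ^ e := by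
    have := hm i 0 (by omega)
    simpa using this
  have hu : IsUnit (y i) := by
    have h1 : IsUnit (y i ^ e) := by
      rw [h0]
      exact (unitV hi).pow e
    exact (isUnit_pow_iff (by omega)).1 h1
  obtain ⟨T, hT⟩ := exists_ratio hi hu
  have hTe : (T : B) ^ e = 1 := by
    rw [hT, mul_pow] at h0
    exact ((unitV hi).pow e).mul_right_cancel (by rw [h0, one_mul])
  refine ⟨T, finish S v y H.hfv H.hfy T ?_⟩
  intro l
  have hcase : a l ≤ e ∨ (1 < a l ∧ u l = 1) := by
    have h1 := S.ha l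
    by_cases h2 : 1 < a l
    · have h3 := S.hu l h2
      have h4 := S.hd (J l)
      by_cases h5 : 1 < u l
      · exact Or.inl (hoth l h2 h5)
      · refine Or.inr ⟨h2, ?_⟩
        have h6 : u l ≠ 0 := by
          intro h
          rw [h, zero_mul] at h3
          omega
        omega
    · left; omega
  rcases hcase with h1 | h1
  · left
    have h2 := hm l 1 (by omega)
    rw [one_mul, pow_one, pow_one, hT, mul_pow, mul_assoc, mul_left_comm] at h2
    have h3 := ((unitV hi).pow (e - a l)).mul_left_cancel h2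
    calc y l = (T : B) ^ e * y l := by rw [hTe, one_mul]
      _ = (T : B) ^ a l * ((T : B) ^ (e - a l) * y l) := by
        rw [← mul_assoc, ← pow_add, Nat.add_sub_cancel' h1]
      _ = _ := by rw [h3]
  · right; exact h1

/-- the relation of an equation which vanishes at `v` -/
theorem Sys.relation (S : Sys a d f J u) (hfv : ∀ j, eval v (f j) = 0) (I : Finset (Fin N))
    (hI : ∀ i, i ∈ I ↔ v i ≠ 0) {i : Fin N} (hi : 1 < a i) (hiI : i ∈ I) :
    ∃ m : Fin N → ℕ, Pool.Agent.R920.WC.Rel a u I i m := by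
  classical
  have hvi : v i ≠ 0 := (hI i).1 hiI
  have hla := S.hu i hi
  obtain ⟨m, hm, hne, hm0⟩ := exists_other (f (J i)) v (hfv (J i))
    (mem_support_iff.2 (S.hJ i hi)) (by
      intro k hk
      have : k ≠ i := fun h => hvi (h ▸ hk)
      rw [Finsupp.single_eq_of_ne this])
  refine ⟨m, ?_, ?_⟩
  · have h3 := S.hf (J i) (mem_support_iff.1 hm)
    rw [weight_eq] at h3
    rw [hla, ← h3]
    refine Finset.sum_subset (Finset.subset_univ _) fun k _ hk => ?_
    have : v k = 0 := by
      by_contra h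
      exact hk ((hI k).2 h)
    rw [hm0 k this, zero_mul]
  · by_contra hcon
    push Not at hcon
    have h4 : ∀ k, k ≠ i → m k = 0 := by
      intro k hk
      by_cases hkI : k ∈ I
      · exact hcon k hkI hk
      · refine hm0 k ?_
        by_contra h
        exact hkI ((hI k).2 h)
    have h3 := S.hf (J i) (mem_support_iff.1 hm)
    rw [weight_eq, Finset.sum_eq_single_of_mem i (Finset.mem_univ _)
      (fun k _ hk => by rw [h4 k hk, zero_mul])] at h3
    have h5 : m i = u i := by
      have : m i * a i = u i * a i := by rw [h3, hla]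
      exact Nat.eq_of_mul_eq_mul_right (S.ha i) this
    refine hne ?_
    ext k
    by_cases hk : k = i
    · subst hk
      rw [h5]
      simp
    · rw [h4 k hk, Finsupp.single_eq_of_ne hk]

/-- the case of a minimal closed set of nonzero coordinates and large degree -/
theorem Rel.minimal (S : Sys a d f J u) (H : Rel a e f v y) {C : Finset (Fin N)}
    (hC : Minimal' a u C) (hv : ∀ i ∈ C, v i ≠ 0) (ha1 : ∀ i ∈ C, 1 < a i)
    (he : ∑ i ∈ C, (u i - 1) * a i < e)
    (hoth : ∀ l, l ∉ C → a l = 1 ∨ u l = 1 ∨ ∑ i ∈ C, (u i - 1) * a i + a l ≤ e) :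
    ∃ T : Bˣ, ∀ l, y l = (T : B) ^ a l * algebraMap ℂ B (v l) := by
  classical
  choose! M hM using hC.1.2
  have hM1 : ∀ i ∈ C, ∑ k ∈ C, M i k * a k = u i * a i := fun i hi => (hM i hi).1
  have hmin := hC.not_closed hM
  have hpos : ∀ i ∈ C, 0 < a i := fun i hi => by have := ha1 i hi; omega
  have hu1 : ∀ i ∈ C, 1 ≤ u i := by
    intro i hi
    have h1 := S.hu i (ha1 i hi)
    have h2 := S.hd (J i)
    by_contra hcon
    have : u i = 0 := by omega
    rw [this, zero_mul] at h1
    omega
  -- numbers represented by `C`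
  have hmem : ∀ i ∈ C, ∀ E : ℤ,
      ((∑ i ∈ C, (u i - 1) * a i : ℕ) : ℤ) < E + (u i * a i : ℕ) →
      ∃ m : Fin N → ℕ, ((∑ k ∈ C, m k * a k : ℕ) : ℤ) = E := by
    intro i hi E hE
    obtain ⟨-, k, hk, hki, -⟩ := hM i hi
    refine mem_int hpos hM1 hmin hi hk (S.hcop k i hki) ?_
    rw [← Finset.add_sum_erase _ _ hi] at hE
    have h1 : u i * a i = (u i - 1) * a i + a i := by
      obtain ⟨w, hw⟩ : ∃ w, u i = w + 1 := ⟨u i - 1, by have := hu1 i hi; omega⟩
      rw [hw, Nat.add_sub_cancel]
      ring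
    rw [h1] at hE
    push_cast at hE ⊢
    linarith
  have hunit : ∀ i ∈ C, IsUnit (y i) := by
    intro i hi
    obtain ⟨m, hm⟩ := hmem i hi ((e : ℤ) - a i) (by
      have h1 : 1 * a i ≤ u i * a i := Nat.mul_le_mul_right _ (hu1 i hi)
      have h2 : ((∑ i ∈ C, (u i - 1) * a i : ℕ) : ℤ) < e := by exact_mod_cast he
      have h3 : (a i : ℤ) ≤ (u i * a i : ℕ) := by
        rw [one_mul] at h1
        exact_mod_cast h1
      linarith)
    have h1 := H.monoC C m i 1 (by
      have : ((∑ k ∈ C, m k * a k + 1 * a i : ℕ) : ℤ) = e := by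
        push_cast at hm ⊢
        linarith
      exact_mod_cast this)
    rw [pow_one, pow_one] at h1
    have h2 : IsUnit ((∏ k ∈ C, algebraMap ℂ B (v k) ^ m k) * algebraMap ℂ B (v i)) := by
      refine IsUnit.mul ?_ (unitV (hv i hi))
      refine (Finset.prod_induction _ IsUnit (fun _ _ => IsUnit.mul) isUnit_one ?_)
      exact fun k hk => (unitV (hv k hk)).pow _
    rw [← h1] at h2
    exact isUnit_of_mul_isUnit_right h2
  have hratio : ∀ i, ∃ X : Bˣ, i ∈ C → y i = X * algebraMap ℂ B (v i) := by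
    intro i
    by_cases hi : i ∈ C
    · obtain ⟨X, hX⟩ := exists_ratio (hv i hi) (hunit i hi)
      exact ⟨X, fun _ => hX⟩
    · exact ⟨1, fun h => absurd h hi⟩
  choose z hz using hratio
  have hprod : ∀ m : Fin N → ℕ, ∏ k ∈ C, y k ^ m k =
      ((∏ k ∈ C, z k ^ m k : Bˣ) : B) * ∏ k ∈ C, algebraMap ℂ B (v k) ^ m k := by
    intro m
    rw [Units.coe_prod, ← Finset.prod_mul_distrib]
    refine Finset.prod_congr rfl fun k hk => ?_
    rw [hz k hk, mul_pow, Units.val_pow_eq_pow_val]
  have hUv : ∀ m : Fin N → ℕ, IsUnit (∏ k ∈ C, algebraMap ℂ B (v k) ^ m k) := by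
    intro m
    refine (Finset.prod_induction _ IsUnit (fun _ _ => IsUnit.mul) isUnit_one ?_)
    exact fun k hk => (unitV (hv k hk)).pow _
  obtain ⟨i₀, hi₀⟩ := hC.1.1
  obtain ⟨-, i₁, hi₁, hi10, -⟩ := hM i₀ hi₀
  have hrel : ∀ m : Fin N → ℕ, ∑ k ∈ C, m k * a k = e → ∏ k ∈ C, z k ^ m k = 1 := by
    intro m hm
    have h1 := H.monoC C m i₀ 0 (by rw [zero_mul, add_zero, hm])
    rw [pow_zero, pow_zero, mul_one, mul_one, hprod] at h1
    have h2 := (hUv m).mul_right_cancel (h1.trans (one_mul _).symm)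
    ext
    rw [h2, Units.val_one]
  have hzrel : ∀ i ∈ C, ∏ k ∈ C, z k ^ M i k = z i ^ u i := by
    intro i hi
    obtain ⟨m, hm⟩ := hmem i hi ((e : ℤ) - (u i * a i : ℕ)) (by
      have h2 : ((∑ i ∈ C, (u i - 1) * a i : ℕ) : ℤ) < e := by exact_mod_cast he
      linarith)
    have hm' : ∑ k ∈ C, m k * a k + u i * a i = e := by
      have : ((∑ k ∈ C, m k * a k + u i * a i : ℕ) : ℤ) = e := by
        push_cast at hm ⊢
        linarith
      exact_mod_cast this
    have h1 := hrel (fun k => m k + M i k) (by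
      simp only [add_mul, Finset.sum_add_distrib]
      rw [hM1 i hi, hm'])
    have h2 := hrel (fun k => m k + if k = i then u i else 0) (by
      simp only [add_mul, Finset.sum_add_distrib, ite_mul, zero_mul, Finset.sum_ite_eq']
      rw [if_pos hi, hm'])
    simp only [pow_add, Finset.prod_mul_distrib, pow_ite, pow_zero, Finset.prod_ite_eq'] at h1 h2
    rw [if_pos hi] at h2
    exact mul_left_cancel (h1.trans h2.symm)
  obtain ⟨τ, hτ⟩ := exists_tau hpos hi₀ hi₁ (S.hcop i₁ i₀ hi10) z
    (eq_of_wt hpos hM1 hmin hi₀ hi₁ (S.hcop i₁ i₀ hi10) z hzrel (e := e) (by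
      rw [← Finset.add_sum_erase _ _ hi₀] at he
      omega) hrel)
  have hprodτ : ∀ m : Fin N → ℕ, ∏ k ∈ C, z k ^ m k = τ ^ (∑ k ∈ C, m k * a k) := by
    intro m
    rw [← Finset.prod_pow_eq_pow_sum]
    refine Finset.prod_congr rfl fun k hk => ?_
    rw [hτ k hk, ← pow_mul, mul_comm]
  have hτe : τ ^ e = 1 := by
    obtain ⟨m, hm⟩ := hmem i₀ hi₀ (e : ℤ) (by
      have h2 : ((∑ i ∈ C, (u i - 1) * a i : ℕ) : ℤ) < e := by exact_mod_cast he
      have : (0 : ℤ) ≤ (u i₀ * a i₀ : ℕ) := by positivity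
      linarith)
    have hm' : ∑ k ∈ C, m k * a k = e := by exact_mod_cast hm
    rw [← hrel m hm', hprodτ, hm']
  refine ⟨τ, finish S v y H.hfv H.hfy τ ?_⟩
  intro l
  by_cases hlC : l ∈ C
  · left
    rw [hz l hlC, hτ l hlC, Units.val_pow_eq_pow_val]
  by_cases hlin : 1 < a l ∧ u l = 1
  · exact Or.inr hlin
  left
  obtain ⟨m, hm⟩ := hmem i₀ hi₀ ((e : ℤ) - a l) (by
    have h2 : ((∑ i ∈ C, (u i - 1) * a i : ℕ) : ℤ) < e := by exact_mod_cast he
    have h3 : (2 : ℤ) ≤ (u i₀ * a i₀ : ℕ) := by
      have h4 : 1 * a i₀ ≤ u i₀ * a i₀ := Nat.mul_le_mul_right _ (hu1 i₀ hi₀)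
      have h5 := ha1 i₀ hi₀
      exact_mod_cast (by omega : 2 ≤ u i₀ * a i₀)
    have h6 := S.ha l
    rcases hoth l hlC with h | h | h
    · rw [h]
      push_cast at h2 h3 ⊢
      linarith
    · have h7 : a l = 1 := by
        by_contra hne
        exact hlin ⟨by omega, h⟩
      rw [h7]
      push_cast at h2 h3 ⊢
      linarith
    · have h7 : ((∑ i ∈ C, (u i - 1) * a i : ℕ) : ℤ) + a l ≤ e := by exact_mod_cast h
      linarith)
  have hle : a l ≤ e := by
    have h8 : (0 : ℤ) ≤ ((∑ k ∈ C, m k * a k : ℕ) : ℤ) := by positivity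
    rw [hm] at h8
    have : (a l : ℤ) ≤ e := by linarith
    exact_mod_cast this
  have hm' : ∑ k ∈ C, m k * a k = e - a l := by
    have : ((∑ k ∈ C, m k * a k : ℕ) : ℤ) = ((e - a l : ℕ) : ℤ) := by
      rw [hm, Nat.cast_sub hle]
    exact_mod_cast this
  have h1 := H.monoC C m l 1 (by rw [hm', one_mul]; omega)
  rw [pow_one, pow_one, hprod, hprodτ, hm', mul_right_comm, mul_comm] at h1
  have h2 := (hUv m).mul_left_cancel h1
  have hτe' : (τ : B) ^ e = 1 := by
    have := congrArg Units.val hτe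
    rwa [Units.val_pow_eq_pow_val] at this
  rw [Units.val_pow_eq_pow_val] at h2
  calc y l = (τ : B) ^ e * y l := by rw [hτe', one_mul]
    _ = (τ : B) ^ a l * ((τ : B) ^ (e - a l) * y l) := by
      rw [← mul_assoc, ← pow_add, Nat.add_sub_cancel' hle]
    _ = _ := by rw [h2]

end Pool.Agent.K3h99.WF
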