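import Pool.Agent.K3h99.WF.Num
import Pool.Agent.K3h99.WF.Red2

/-!
# Minimal closed sets with at least three elements
-/

set_option autoImplicit false

namespace Pool.Agent.K3h99.WF

open MvPolynomial Pool.Agent.H39R2.Fuj Pool.Agent.R920.WC
open Pool.Agent.H61.Fu (comp prod_single lt_of_ne_single unitV exists_ratio)

variable {N : ℕ} {κ : Type*} {B : Type*} [CommRing B] [Algebra ℂ B]
  {a : Fin N → ℕ} {d : κ → ℕ} {e : ℕ} {f : κ → MvPolynomial (Fin N) ℂ}
  {J : Fin N → κ} {u : Fin N → ℕ} {v : Fin N → ℂ} {y : Fin N → B}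

/-- a common root of the ratios of the coordinates in `C` determines the other coordinates -/
theorem Rel.of_root (S : Sys a d f J u) (H : Rel a e f v y) {C : Finset (Fin N)}
    (hv : ∀ i ∈ C, v i ≠ 0) (τ : Bˣ)
    (hz : ∀ i ∈ C, y i = (τ : B) ^ a i * algebraMap ℂ B (v i))
    (he : ∃ m : Fin N → ℕ, ∑ k ∈ C, m k * a k = e)
    (hoth : ∀ l, l ∉ C → (v l = 0 ∧ y l = 0) ∨ (1 < a l ∧ u l = 1) ∨
      ∃ m : Fin N → ℕ, ∑ k ∈ C, m k * a k + a l = e) :
    ∀ l, y l = (τ : B) ^ a l * algebraMap ℂ B (v l) := by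
  classical
  have hprod : ∀ m : Fin N → ℕ, ∏ k ∈ C, y k ^ m k =
      (τ : B) ^ (∑ k ∈ C, m k * a k) * ∏ k ∈ C, algebraMap ℂ B (v k) ^ m k := by
    intro m
    rw [← Finset.prod_pow_eq_pow_sum, ← Finset.prod_mul_distrib]
    refine Finset.prod_congr rfl fun k hk => ?_
    rw [hz k hk, mul_pow, ← pow_mul, mul_comm (a k)]
  have hUv : ∀ m : Fin N → ℕ, IsUnit (∏ k ∈ C, algebraMap ℂ B (v k) ^ m k) := by
    intro m
    refine (Finset.prod_induction _ IsUnit (fun _ _ => IsUnit.mul) isUnit_one ?_)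
    exact fun k hk => (unitV (hv k hk)).pow _
  have hτe : (τ : B) ^ e = 1 ∨ N = 0 := by
    rcases Nat.eq_zero_or_pos N with h | h
    · exact Or.inr h
    left
    obtain ⟨m, hm⟩ := he
    have h1 := H.monoC C m ⟨0, h⟩ 0 (by rw [zero_mul, add_zero, hm])
    rw [pow_zero, pow_zero, mul_one, mul_one, hprod, hm] at h1
    exact (hUv m).mul_right_cancel (h1.trans (one_mul _).symm)
  refine finish S v y H.hfv H.hfy τ ?_
  intro l
  have hτe' : (τ : B) ^ e = 1 := by
    rcases hτe with h | h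
    · exact h
    · subst h
      exact l.elim0
  by_cases hlC : l ∈ C
  · exact Or.inl (hz l hlC)
  rcases hoth l hlC with h | h | ⟨m, hm⟩
  · left
    rw [h.1, h.2, map_zero, mul_zero]
  · exact Or.inr h
  · left
    have h1 := H.monoC C m l 1 (by rw [one_mul, hm])
    rw [pow_one, pow_one, hprod, mul_right_comm, mul_comm] at h1
    have h2 := (hUv m).mul_left_cancel h1
    calc y l = (τ : B) ^ e * y l := by rw [hτe', one_mul]
      _ = (τ : B) ^ a l * ((τ : B) ^ (∑ k ∈ C, m k * a k) * y l) := by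
        rw [← mul_assoc, ← pow_add, add_comm (a l), hm]
      _ = _ := by rw [h2]

/-- the case of a minimal closed set with at least three elements -/
theorem Rel.chip (hOB : OneBad) (S : Sys a d f J u) (H : Rel a e f v y) {C : Finset (Fin N)}
    (hC : Minimal' a u C) (hv : ∀ i ∈ C, v i ≠ 0) (ha1 : ∀ i ∈ C, 1 < a i) (h3 : 3 ≤ C.card)
    (he : ∑ i ∈ C, (u i - 1) * (a i - 1) < e)
    (hoth : ∀ l, l ∉ C → (v l = 0 ∧ y l = 0) ∨ (1 < a l ∧ u l = 1) ∨
      ∑ i ∈ C, (u i - 1) * (a i - 1) + a l ≤ e ∨ ∃ s ∈ C, a l ≤ u s) :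
    ∃ T : Bˣ, ∀ l, y l = (T : B) ^ a l * algebraMap ℂ B (v l) := by
  classical
  have hpos : ∀ i ∈ C, 0 < a i := fun i hi => by have := ha1 i hi; omega
  have hcop : ∀ i ∈ C, ∀ k ∈ C, i ≠ k → Nat.Coprime (a i) (a k) := fun i _ k _ h => S.hcop i k h
  obtain ⟨c, hcu, hcmin, hcC⟩ := exists_least hC hpos
  have hF1 : ∀ l ∈ C, ∑ k ∈ C.erase l, (c k - 1) + 1 ≤ a l := fun l hl =>
    count_le ha1 hcop hcmin hl
  choose! M hM using hcC.1.2
  have hM1 : ∀ i ∈ C, ∑ k ∈ C, M i k * a k = c i * a i := fun i hi => (hM i hi).1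
  have hmin := hcC.not_closed hM
  -- `c i ≥ 2`
  have hc2 : ∀ i ∈ C, 2 ≤ c i := by
    intro i hi
    have h1 := (hcu i hi).1
    by_contra hcon
    have h2 : c i = 1 := by omega
    obtain ⟨h3, k, hk, hki, hMk⟩ := hM i hi
    rw [h2, one_mul, ← Finset.add_sum_erase _ _ hi] at h3
    have h4 : M i k * a k ≤ ∑ x ∈ C.erase i, M i x * a x := Finset.single_le_sum
      (f := fun x => M i x * a x) (fun _ _ => Nat.zero_le _) (Finset.mem_erase.2 ⟨hki, hk⟩)
    have h5 : 0 < M i k * a k := Nat.mul_pos (Nat.pos_of_ne_zero hMk) (hpos k hk)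
    have h6 : M i i = 0 := by
      by_contra h
      have : 1 * a i ≤ M i i * a i := Nat.mul_le_mul_right _ (Nat.one_le_iff_ne_zero.2 h)
      omega
    rw [h6, zero_mul, zero_add] at h3
    exact hcC.irredundant ha1 hcop hi (M i) h3
  have hce : ∑ i ∈ C, (c i - 1) * (a i - 1) < e := by
    refine lt_of_le_of_lt (Finset.sum_le_sum fun i hi => Nat.mul_le_mul_right _ ?_) he
    have := (hcu i hi).2
    omega
  -- the sum `M`
  set Mc := ∑ i ∈ C, (c i - 1) * a i with hMc
  have hMc1 : Mc = ∑ i ∈ C, (c i - 1) * (a i - 1) + ∑ i ∈ C, (c i - 1) := by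
    rw [hMc, ← Finset.sum_add_distrib]
    refine Finset.sum_congr rfl fun i hi => ?_
    obtain ⟨x, hx⟩ : ∃ x, a i = x + 1 := ⟨a i - 1, by have := ha1 i hi; omega⟩
    rw [hx, Nat.add_sub_cancel]
    ring
  have hτ : ∀ s ∈ C, Mc + 3 ≤ e + a s + c s := by
    intro s hs
    have h1 := hF1 s hs
    have h2 : (c s - 1) + ∑ k ∈ C.erase s, (c k - 1) = ∑ k ∈ C, (c k - 1) :=
      Finset.add_sum_erase C (fun k => c k - 1) hs
    have h3 := hc2 s hs
    omega
  -- numbers represented by `C`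
  have hmem : ∀ s ∈ C, ∀ E : ℕ, Mc < E + c s * a s →
      ∃ m : Fin N → ℕ, ∑ k ∈ C, m k * a k = E := by
    intro s hs E hE
    obtain ⟨-, k, hk, hks, -⟩ := hM s hs
    refine mem_of_large hpos hM1 hmin hs hk (S.hcop k s hks) ?_
    rw [hMc, ← Finset.add_sum_erase _ _ hs] at hE
    have h1 : c s * a s = (c s - 1) * a s + a s := by
      obtain ⟨w, hw⟩ : ∃ w, c s = w + 1 := ⟨c s - 1, by have := hc2 s hs; omega⟩
      rw [hw, Nat.add_sub_cancel]
      ring
    omega
  have hprodge : ∀ s ∈ C, a s + c s ≤ (c s - 1) * a s + 2 := by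
    intro s hs
    obtain ⟨x, hx⟩ : ∃ x, a s = x + 2 := ⟨a s - 2, by have := ha1 s hs; omega⟩
    obtain ⟨w, hw⟩ : ∃ w, c s = w + 2 := ⟨c s - 2, by have := hc2 s hs; omega⟩
    rw [hw, hx, show w + 2 - 1 = w + 1 by omega]
    nlinarith [Nat.zero_le (w * x)]
  have hle : ∀ s ∈ C, a s ≤ e := by
    intro s hs
    -- from another element
    obtain ⟨-, k, hk, hks, -⟩ := hM s hs
    have h1 : (c k - 1) * (a k - 1) + (c s - 1) * (a s - 1) ≤
        ∑ i ∈ C, (c i - 1) * (a i - 1) := by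
      rw [← Finset.add_sum_erase _ _ hs, add_comm]
      refine Nat.add_le_add_left ?_ _
      exact Finset.single_le_sum (f := fun i => (c i - 1) * (a i - 1))
        (fun _ _ => Nat.zero_le _) (Finset.mem_erase.2 ⟨hks, hk⟩)
    have h2 := hc2 s hs
    have h3 : 1 * (a s - 1) ≤ (c s - 1) * (a s - 1) := Nat.mul_le_mul_right _ (by omega)
    have h4 : 1 ≤ (c k - 1) * (a k - 1) := by
      have := hc2 k hk
      have := ha1 k hk
      exact Nat.mul_pos (by omega) (by omega)
    omega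
  have hunit : ∀ i ∈ C, IsUnit (y i) := by
    intro i hi
    obtain ⟨m, hm⟩ := hmem i hi (e - a i) (by
      have h1 := hτ i hi
      have h2 := hprodge i hi
      have h3 := hle i hi
      have h4 : c i * a i = (c i - 1) * a i + a i := by
        obtain ⟨w, hw⟩ : ∃ w, c i = w + 1 := ⟨c i - 1, by have := hc2 i hi; omega⟩
        rw [hw, Nat.add_sub_cancel]
        ring
      omega)
    have h1 := H.monoC C m i 1 (by have := hle i hi; omega)
    rw [pow_one, pow_one] at h1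
    have h2 : IsUnit ((∏ k ∈ C, algebraMap ℂ B (v k) ^ m k) * algebraMap ℂ B (v i)) := by
      refine IsUnit.mul ?_ (unitV (hv i hi))
      refine (Finset.prod_induction _ IsUnit (fun _ _ => IsUnit.mul) isUnit_one ?_)
      exact fun k hk => (unitV (hv k hk)).pow _
    rw [← h1] at h2
    exact isUnit_of_mul_isUnit_right h2
  have hratio : ∀ i, ∃ X : Bˣ, i ∈ C → y i = X * algebraMap ℂ B (v i) := by
    intro i
    by_cases hi : i ∈ C
    · obtain ⟨X, hX⟩ := exists_ratio (hv i hi) (hunit i hi)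
      exact ⟨X, fun _ => hX⟩
    · exact ⟨1, fun h => absurd h hi⟩
  choose z hz using hratio
  have hprod : ∀ m : Fin N → ℕ, ∏ k ∈ C, y k ^ m k =
      ((∏ k ∈ C, z k ^ m k : Bˣ) : B) * ∏ k ∈ C, algebraMap ℂ B (v k) ^ m k := by
    intro m
    rw [Units.coe_prod, ← Finset.prod_mul_distrib]
    refine Finset.prod_congr rfl fun k hk => ?_
    rw [hz k hk, mul_pow, Units.val_pow_eq_pow_val]
  have hUv : ∀ m : Fin N → ℕ, IsUnit (∏ k ∈ C, algebraMap ℂ B (v k) ^ m k) := by
    intro m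
    refine (Finset.prod_induction _ IsUnit (fun _ _ => IsUnit.mul) isUnit_one ?_)
    exact fun k hk => (unitV (hv k hk)).pow _
  obtain ⟨i₂, hi₂⟩ := hC.1.1
  have hrel : ∀ m : Fin N → ℕ, ∑ k ∈ C, m k * a k = e → ∏ k ∈ C, z k ^ m k = 1 := by
    intro m hm
    have h1 := H.monoC C m i₂ 0 (by rw [zero_mul, add_zero, hm])
    rw [pow_zero, pow_zero, mul_one, mul_one, hprod] at h1
    have h2 := (hUv m).mul_right_cancel (h1.trans (one_mul _).symm)
    ext
    rw [h2, Units.val_one]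
  -- the sink
  obtain ⟨s, hs, hgood⟩ : ∃ s ∈ C, ∀ i ∈ C, i ≠ s →
      ∃ m : Fin N → ℕ, ∑ k ∈ C, m k * a k + c i * a i = e := by
    by_cases hb : ∃ s ∈ C, ∀ m : Fin N → ℕ, ∑ k ∈ C, m k * a k + c s * a s ≠ e
    · obtain ⟨s, hs, hbs⟩ := hb
      refine ⟨s, hs, fun i hi hne => ?_⟩
      by_contra hcon
      push Not at hcon
      exact hOB N a c C ha1 hcop h3 hcC hcmin e hce i hi s hs hne hcon hbs
    · push Not at hb
      exact ⟨i₂, hi₂, fun i hi _ => hb i hi⟩
  obtain ⟨-, i₁, hi₁, hi10, -⟩ := hM s hs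
  have hzrel : ∀ i ∈ C, i ≠ s → ∏ k ∈ C, z k ^ M i k = z i ^ c i := by
    intro i hi hne
    obtain ⟨m, hm⟩ := hgood i hi hne
    have h1 := hrel (fun k => m k + M i k) (by
      simp only [add_mul, Finset.sum_add_distrib]
      rw [hM1 i hi, hm])
    have h2 := hrel (fun k => m k + if k = i then c i else 0) (by
      simp only [add_mul, Finset.sum_add_distrib, ite_mul, zero_mul, Finset.sum_ite_eq']
      rw [if_pos hi, hm])
    simp only [pow_add, Finset.prod_mul_distrib, pow_ite, pow_zero, Finset.prod_ite_eq'] at h1 h2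
    rw [if_pos hi] at h2
    exact mul_left_cancel (h1.trans h2.symm)
  have hsink : ∑ i ∈ C.erase s, (c i - 1) * a i < e + a s := by
    have h1 := hτ s hs
    have h2 := hprodge s hs
    rw [hMc, ← Finset.add_sum_erase _ _ hs] at h1
    omega
  obtain ⟨τ, hτz⟩ := exists_tau hpos hs hi₁ (S.hcop i₁ s hi10) z
    (eq_of_wt2 hpos hM1 hmin hs hi₁ (S.hcop i₁ s hi10) z hzrel hsink hrel)
  refine ⟨τ, H.of_root S hv τ (fun i hi => by
    rw [hz i hi, hτz i hi, Units.val_pow_eq_pow_val]) ?_ ?_⟩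
  · refine hmem s hs e ?_
    have h1 := hτ s hs
    have h2 := hprodge s hs
    have h4 : c s * a s = (c s - 1) * a s + a s := by
      obtain ⟨w, hw⟩ : ∃ w, c s = w + 1 := ⟨c s - 1, by have := hc2 s hs; omega⟩
      rw [hw, Nat.add_sub_cancel]
      ring
    omega
  · intro l hl
    rcases hoth l hl with h | h | h | ⟨t, ht, hle'⟩
    · exact Or.inl h
    · exact Or.inr (Or.inl h)
    · right; right
      obtain ⟨m, hm⟩ := hC.mem_of_large ha1 hcop (fun i hi => by
        have := hcu i hi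
        omega) (e := e - a l) (by omega)
      exact ⟨m, by omega⟩
    · right; right
      -- `e ≥ 1 + ∑_{C \ t} (c-1)(a-1) + (u_t - 1)(a_t - 1)`
      have h1 : ∑ i ∈ C.erase t, (c i - 1) * (a i - 1) + (u t - 1) * (a t - 1) < e := by
        refine lt_of_le_of_lt ?_ he
        rw [← Finset.add_sum_erase _ _ ht, add_comm]
        refine Nat.add_le_add_left (Finset.sum_le_sum fun i hi => Nat.mul_le_mul_right _ ?_) _
        have := (hcu i (Finset.mem_of_mem_erase hi)).2
        omega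
      have h2 : 1 * (u t - 1) ≤ (a t - 1) * (u t - 1) :=
        Nat.mul_le_mul_right _ (by have := ha1 t ht; omega)
      rw [mul_comm (a t - 1)] at h2
      have h3' := hF1 t ht
      have h4 : ∑ i ∈ C.erase t, (c i - 1) * a i =
          ∑ i ∈ C.erase t, (c i - 1) * (a i - 1) + ∑ i ∈ C.erase t, (c i - 1) := by
        rw [← Finset.sum_add_distrib]
        refine Finset.sum_congr rfl fun i hi => ?_
        obtain ⟨x, hx⟩ : ∃ x, a i = x + 1 :=
          ⟨a i - 1, by have := ha1 i (Finset.mem_of_mem_erase hi); omega⟩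
        rw [hx, Nat.add_sub_cancel]
        ring
      have hut := hcu t ht
      have hale : a l ≤ e := by omega
      obtain ⟨-, k, hk, hkt, -⟩ := hM t ht
      obtain ⟨m, hm⟩ := mem_of_large hpos hM1 hmin ht hk (S.hcop k t hkt) (e := e - a l) (by
        omega)
      exact ⟨m, by omega⟩

end Pool.Agent.K3h99.WF
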