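import Pool.Agent.K3h99.WF.Alg
import Pool.Agent.H61.Fu.Final

/-!
# Points and tangent vectors
-/

set_option autoImplicit false

namespace Pool.Agent.K3h99.WF

open MvPolynomial Pool.Agent.H39R2.Fuj Pool.Agent.R920.WC
open Pool.Agent.H61.Fu (prop_sections aeval_dual)

variable {N : ℕ} {κ : Type*} {a : Fin N → ℕ} {d : κ → ℕ} {e : ℕ}
  {f : κ → MvPolynomial (Fin N) ℂ}

theorem points (he : 1 ≤ e) (hf : ∀ j, IsWeightedHomogeneous a (f j) (d j))
    (hmain : ∀ v y : Fin N → ℂ, v ≠ 0 → y ≠ 0 → Rel (B := ℂ) a e f v y →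
      ∃ T : ℂ, T ≠ 0 ∧ ∀ l, y l = T ^ a l * v l)
    (hb : ∀ v : Fin N → ℂ, v ≠ 0 → (∀ j, eval v (f j) = 0) →
      ∃ s : MvPolynomial (Fin N) ℂ, IsWeightedHomogeneous a s e ∧ eval v s ≠ 0)
    (v w : Fin N → ℂ) (hv : v ≠ 0) (hw : w ≠ 0) (hfv : ∀ j, eval v (f j) = 0)
    (hfw : ∀ j, eval w (f j) = 0)
    (hsec : ∀ s : MvPolynomial (Fin N) ℂ, IsWeightedHomogeneous a s e → eval v s = 0 →
      eval w s = 0) : ∃ t : ℂ, t ≠ 0 ∧ ∀ i, w i = t ^ a i * v i := by
  obtain ⟨c, hc⟩ := prop_sections (a := a) (e := e) (v := v) (fun s => eval w s)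
    (fun s t => by simp) (fun c s _ => by simp) (hb v hv hfv) hsec
  have hc0 : c ≠ 0 := by
    rintro rfl
    obtain ⟨s, h1, h2⟩ := hb w hw hfw
    exact h2 (by rw [hc s h1, zero_mul])
  obtain ⟨μ, hμ⟩ := IsAlgClosed.exists_pow_nat_eq c (show 0 < e from he)
  have hμ0 : μ ≠ 0 := by
    rintro rfl
    rw [zero_pow (by omega)] at hμ
    exact hc0 hμ.symm
  set w' : Fin N → ℂ := fun i => μ⁻¹ ^ a i * w i with hw'
  have hww : ∀ i, w i = μ ^ a i * w' i := by
    intro i
    rw [hw']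
    simp only
    rw [← mul_assoc, ← mul_pow, mul_inv_cancel₀ hμ0, one_pow, one_mul]
  have hs : ∀ s, IsWeightedHomogeneous a s e → eval w' s = eval v s := by
    intro s hs
    rw [hw', eval_scale a w μ⁻¹ hs, hc s hs, ← hμ, ← mul_assoc, ← mul_pow, inv_mul_cancel₀ hμ0,
      one_pow, one_mul]
  have hfw' : ∀ j, eval w' (f j) = 0 := by
    intro j
    rw [hw', eval_scale a w μ⁻¹ (hf j), hfw, mul_zero]
  have hw'0 : w' ≠ 0 := by
    intro h
    apply hw
    funext i
    rw [hww, h]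
    simp
  have H1 : Rel (B := ℂ) a e f v w' := ⟨fun s h => by
    rw [← hs s h]; simp [aeval_eq_eval], hfv, fun j => by rw [aeval_eq_eval]; exact hfw' j⟩
  obtain ⟨T, hT0, hT⟩ := hmain v w' hv hw'0 H1
  refine ⟨μ * T, mul_ne_zero hμ0 hT0, fun i => ?_⟩
  rw [hww, hT, mul_pow, mul_assoc]

theorem tangents (he1 : 1 ≤ e) (ha : ∀ i, 0 < a i) (hf : ∀ j, IsWeightedHomogeneous a (f j) (d j))
    (hmain : ∀ (v : Fin N → ℂ) (y : Fin N → TrivSqZeroExt ℂ ℂ), v ≠ 0 →
      (∀ i, v i ≠ 0 → IsUnit (y i)) → Rel a e f v y →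
      ∃ T : (TrivSqZeroExt ℂ ℂ)ˣ, ∀ l, y l = (T : TrivSqZeroExt ℂ ℂ) ^ a l * algebraMap _ _ (v l))
    (hb : ∀ v : Fin N → ℂ, v ≠ 0 → (∀ j, eval v (f j) = 0) →
      ∃ s : MvPolynomial (Fin N) ℂ, IsWeightedHomogeneous a s e ∧ eval v s ≠ 0)
    (v u : Fin N → ℂ) (hv : v ≠ 0) (hfv : ∀ j, eval v (f j) = 0)
    (hfu : ∀ j, dd v u (f j) = 0)
    (hsec : ∀ s : MvPolynomial (Fin N) ℂ, IsWeightedHomogeneous a s e → eval v s = 0 →
      dd v u s = 0) : ∃ τ : ℂ, ∀ i, u i = τ * (a i * v i) := by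
  obtain ⟨c, hc⟩ := prop_sections (a := a) (e := e) (v := v) (fun s => dd v u s)
    (fun s t => dd_sub v u s t) (fun c s _ => dd_smul v u c s) (hb v hv hfv) hsec
  have he : (e : ℂ) ≠ 0 := by
    exact_mod_cast (by omega : e ≠ 0)
  set τ : ℂ := c / e with hτ
  set u' : Fin N → ℂ := fun i => u i - τ * (a i * v i) with hu'
  have hdd : ∀ s, dd v u' s = dd v u s - τ * dd v (fun i => a i * v i) s := by
    intro s
    rw [hu', dd_sub_dir v u (fun i => τ * (a i * v i)) s, dd_smul_dir]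
  set y : Fin N → TrivSqZeroExt ℂ ℂ :=
    fun i => TrivSqZeroExt.inl (v i) + TrivSqZeroExt.inr (u' i) with hy
  have H : Rel a e f v y := by
    refine ⟨fun s hs => ?_, hfv, fun j => ?_⟩
    · rw [hy, aeval_dual, hdd, dd_euler a v hs, hc s hs, hτ]
      have : c * eval v s - c / e * (e * eval v s) = 0 := by field_simp; ring
      rw [this, TrivSqZeroExt.inr_zero, add_zero]
      rfl
    · rw [hy, aeval_dual, hdd, dd_euler a v (hf j), hfv, hfu, mul_zero, mul_zero, sub_zero,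
        TrivSqZeroExt.inl_zero, TrivSqZeroExt.inr_zero, add_zero]
  have hunit : ∀ i, v i ≠ 0 → IsUnit (y i) := by
    intro i hi
    rw [hy, TrivSqZeroExt.isUnit_iff_isUnit_fst]
    simpa using hi
  obtain ⟨T, hT⟩ := hmain v y hv hunit H
  have hT0 : (T : TrivSqZeroExt ℂ ℂ).fst ≠ 0 := by
    have := (TrivSqZeroExt.isUnit_iff_isUnit_fst.1 T.isUnit)
    exact this.ne_zero
  set t0 := (T : TrivSqZeroExt ℂ ℂ).fst
  set t1 := (T : TrivSqZeroExt ℂ ℂ).snd
  refine ⟨τ + t1 / t0, fun i => ?_⟩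
  have h1 := congrArg TrivSqZeroExt.fst (hT i)
  have h2 := congrArg TrivSqZeroExt.snd (hT i)
  have hal : algebraMap ℂ (TrivSqZeroExt ℂ ℂ) (v i) = TrivSqZeroExt.inl (v i) := rfl
  rw [hal] at h1 h2
  simp only [hy, TrivSqZeroExt.fst_add, TrivSqZeroExt.fst_inl, TrivSqZeroExt.fst_inr, add_zero,
    TrivSqZeroExt.fst_mul, TrivSqZeroExt.fst_pow] at h1
  simp only [hy, TrivSqZeroExt.snd_add, TrivSqZeroExt.snd_inl, TrivSqZeroExt.snd_inr, zero_add,
    TrivSqZeroExt.snd_mul, TrivSqZeroExt.snd_pow, TrivSqZeroExt.fst_inl,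
    MulOpposite.smul_eq_mul_unop, MulOpposite.unop_op, smul_eq_mul, nsmul_eq_mul] at h2
  have h3 : u' i = t1 / t0 * (a i * v i) := by
    rw [h2]
    rcases Nat.eq_zero_or_pos (a i) with h | h
    · have := ha i; omega
    obtain ⟨b, hb⟩ : ∃ b, a i = b + 1 := ⟨a i - 1, by omega⟩
    change v i = t0 ^ a i * v i at h1
    rw [hb] at h1 ⊢
    rw [mul_zero, zero_add, Nat.pred_succ]
    change ((b + 1 : ℕ) : ℂ) * (t0 ^ b * t1) * v i = _
    have h4 : t1 / t0 * (((b + 1 : ℕ) : ℂ) * v i) =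
        t1 / t0 * (((b + 1 : ℕ) : ℂ) * (t0 ^ (b + 1) * v i)) := by rw [← h1]
    rw [h4]
    field_simp
    ring
  rw [hu'] at h3
  simp only at h3
  rw [add_mul, ← h3]
  ring

/-- the numerical bound for an injective assignment of degrees to weights -/
theorem bound_inj [Fintype κ] {J : Fin N → κ} {u : Fin N → ℕ} (S : Sys a d f J u)
    (hinj : ∀ i k, 1 < a i → 1 < a k → J i = J k → i = k)
    (hE : ∑ j, (d j - 1) + 1 ≤ e + ∑ i, (a i - 1)) (I : Finset (Fin N)) :
    ∑ i ∈ I.filter (fun i => 1 < a i), (u i - 1) * a i + 1 ≤ e := by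
  classical
  set W : Finset (Fin N) := Finset.univ.filter fun i => 1 < a i with hW
  have hu1 : ∀ i ∈ W, (u i - 1) * a i + (a i - 1) = d (J i) - 1 := by
    intro i hi
    have hi' : 1 < a i := (Finset.mem_filter.1 hi).2
    have h1 := S.hu i hi'
    have h2 := S.hd (J i)
    have h3 : u i ≠ 0 := by
      intro h
      rw [h, zero_mul] at h1
      omega
    obtain ⟨w, hw⟩ : ∃ w, u i = w + 1 := ⟨u i - 1, by omega⟩
    rw [← h1, hw, Nat.add_sub_cancel]
    have : (w + 1) * a i = w * a i + a i := by ring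
    omega
  have h1 : ∑ i, (a i - 1) = ∑ i ∈ W, (a i - 1) := by
    rw [hW, Finset.sum_filter]
    refine Finset.sum_congr rfl fun i _ => ?_
    by_cases h : 1 < a i
    · rw [if_pos h]
    · rw [if_neg h]
      have := S.ha i
      omega
  have h2 : ∑ i ∈ W, (d (J i) - 1) ≤ ∑ j, (d j - 1) := by
    rw [← Finset.sum_image (f := fun j => d j - 1) (g := J) (s := W)
      (fun i hi k hk h => hinj i k (Finset.mem_filter.1 hi).2 (Finset.mem_filter.1 hk).2 h)]
    exact Finset.sum_le_sum_of_subset (Finset.subset_univ _)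
  have h3 : ∑ i ∈ W, (u i - 1) * a i + ∑ i ∈ W, (a i - 1) = ∑ i ∈ W, (d (J i) - 1) := by
    rw [← Finset.sum_add_distrib]
    exact Finset.sum_congr rfl hu1
  have h4 : ∑ i ∈ I.filter (fun i => 1 < a i), (u i - 1) * a i ≤ ∑ i ∈ W, (u i - 1) * a i :=
    Finset.sum_le_sum_of_subset (fun i hi => Finset.mem_filter.2
      ⟨Finset.mem_univ _, (Finset.mem_filter.1 hi).2⟩)
  omega

/-- points with the same values of all sections, if the degrees are assigned injectively -/
theorem main_inj [Fintype κ] {B : Type*} [CommRing B] [Algebra ℂ B] {J : Fin N → κ}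
    {u : Fin N → ℕ} (S : Sys a d f J u)
    (hinj : ∀ i k, 1 < a i → 1 < a k → J i = J k → i = k)
    (hE : ∑ j, (d j - 1) + 1 ≤ e + ∑ i, (a i - 1)) {v : Fin N → ℂ} {y : Fin N → B}
    (H : Rel a e f v y) (hv : v ≠ 0) :
    ∃ T : Bˣ, ∀ l, y l = (T : B) ^ a l * algebraMap ℂ B (v l) := by
  classical
  have hbd := bound_inj S hinj hE
  have hu1 : ∀ i, 1 < a i → 1 ≤ u i := by
    intro i hi
    have h1 := S.hu i hi
    have h2 := S.hd (J i)
    by_contra hcon
    have : u i = 0 := by omega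
    rw [this, zero_mul] at h1
    omega
  by_cases h1 : ∃ i, v i ≠ 0 ∧ a i = 1
  · obtain ⟨i, hi, hai⟩ := h1
    refine H.weight_one S hi hai (by have := hbd ∅; omega) ?_
    intro l hl hul
    have h2 := hbd {l}
    rw [Finset.filter_singleton, if_pos hl, Finset.sum_singleton] at h2
    have h3 : 1 * a l ≤ (u l - 1) * a l := Nat.mul_le_mul_right _ (by omega)
    omega
  · push Not at h1
    set I : Finset (Fin N) := Finset.univ.filter fun i => v i ≠ 0 with hI
    have hmemI : ∀ i, i ∈ I ↔ v i ≠ 0 := fun i => by simp [hI]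
    have hI1 : ∀ i ∈ I, 1 < a i := fun i hi => by
      have := h1 i ((hmemI i).1 hi)
      have := S.ha i
      omega
    have hIne : I.Nonempty := by
      by_contra h
      rw [Finset.not_nonempty_iff_eq_empty] at h
      refine hv (funext fun i => ?_)
      by_contra hi
      have := (hmemI i).2 hi
      rw [h] at this
      exact absurd this (Finset.notMem_empty i)
    obtain ⟨C, hCI, hC⟩ := exists_minimal (a := a) (ℓ := u) (I := I)
      ⟨hIne, fun i hi => S.relation H.hfv I hmemI (hI1 i hi) hi⟩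
    have hC1 : ∀ i ∈ C, 1 < a i := fun i hi => hI1 i (hCI hi)
    refine H.minimal S hC (fun i hi => (hmemI i).1 (hCI hi)) hC1 ?_ ?_
    · have h2 := hbd C
      rw [Finset.filter_true_of_mem hC1] at h2
      omega
    · intro l hl
      by_cases hal : a l = 1
      · exact Or.inl hal
      by_cases hul : u l = 1
      · exact Or.inr (Or.inl hul)
      right; right
      have h3 : 1 < a l := by
        have := S.ha l
        omega
      have h4 := hu1 l h3
      have h2 := hbd (insert l C)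
      rw [Finset.filter_insert, if_pos h3, Finset.filter_true_of_mem hC1,
        Finset.sum_insert hl] at h2
      have h5 : 1 * a l ≤ (u l - 1) * a l := Nat.mul_le_mul_right _ (by omega)
      omega

/-- the pure powers -/
theorem exists_sys {J : Fin N → κ} (ha : ∀ i, 0 < a i)
    (hcop : ∀ i k, i ≠ k → Nat.Coprime (a i) (a k)) (hd : ∀ j, 0 < d j)
    (hf : ∀ j, IsWeightedHomogeneous a (f j) (d j))
    (hJ : ∀ i, 1 < a i → eval (Pi.single i 1 : Fin N → ℂ) (f (J i)) ≠ 0) :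
    ∃ u, Sys a d f J u := by
  have hpure : ∀ i, ∃ l : ℕ, 1 < a i → l * a i = d (J i) ∧
      coeff (Finsupp.single i l) (f (J i)) ≠ 0 := by
    intro i
    by_cases hi : 1 < a i
    · obtain ⟨m, hm, hm0⟩ := exists_monomial (f (J i)) _ (hJ i hi)
      have h2 : m = Finsupp.single i (m i) := by
        ext k
        by_cases hk : k = i
        · subst hk
          simp
        · rw [hm0 k (Pi.single_eq_of_ne hk _), Finsupp.single_eq_of_ne hk]
      refine ⟨m i, fun _ => ⟨?_, h2 ▸ mem_support_iff.1 hm⟩⟩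
      have h3 := hf (J i) (mem_support_iff.1 hm)
      rw [weight_eq, Finset.sum_eq_single_of_mem i (Finset.mem_univ _)] at h3
      · exact h3
      · intro k _ hk
        rw [hm0 k (Pi.single_eq_of_ne hk _), zero_mul]
    · exact ⟨0, fun h => absurd h hi⟩
  choose u hu using hpure
  exact ⟨u, ha, hcop, hd, hf, fun i hi => (hu i hi).1, fun i hi => (hu i hi).2⟩

end Pool.Agent.K3h99.WF
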