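import Pool.Agent.K3h99.WF.Main
import Pool.Agent.K3h99.WF.Final

/-!
# Separation of points and tangent vectors for pairwise coprime weights
-/

set_option autoImplicit false

namespace Pool.Agent.K3h99.WF

open MvPolynomial Pool.Agent.H39R2.Fuj Pool.Agent.R920.WC

variable {N : ℕ} {κ : Type} [Fintype κ] [DecidableEq κ]
  {a : Fin N → ℕ} {d : κ → ℕ} {e : ℕ} {f : κ → MvPolynomial (Fin N) ℂ}
  {J : Fin N → κ} {u : Fin N → ℕ}

omit [Fintype κ] [DecidableEq κ] in
/-- the support in the exceptional case -/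
theorem exc_support (hcop : ∀ i k, i ≠ k → Nat.Coprime (a i) (a k)) {v w : Fin N → ℂ}
    (H : Rel (B := ℂ) a e f v w) {i k : Fin N} (hik : i ≠ k) (hi : v i ≠ 0) (hk : v k ≠ 0)
    (hai : 1 < a i) (hak : 1 < a k)
    (hoth : ∀ l, l ≠ i → l ≠ k → (v l = 0 ∧ w l = 0) ∨ a l + (a i - 1) * (a k - 1) ≤ e)
    (he : (a i - 1) * (a k - 1) ≤ e) (hn : ¬ (IsUnit (w i) ∧ IsUnit (w k))) :
    (∀ x, v x ≠ 0 → x = i ∨ x = k) ∧ (1 ≤ e → w i ≠ 0 ∨ w k ≠ 0) := by
  rw [isUnit_iff_ne_zero, isUnit_iff_ne_zero] at hn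
  have hmon : ∀ (x : Fin N) (p q r : ℕ), v x ≠ 0 → p * a i + q * a k + r * a x = e →
      (p ≠ 0 → w i ≠ 0) ∧ (q ≠ 0 → w k ≠ 0) := by
    intro x p q r hx h
    have h1 : IsWeightedHomogeneous a (X i ^ p * X k ^ q * X x ^ r : MvPolynomial (Fin N) ℂ)
        e := by
      rw [← h]
      exact (hom_two a i k p q).mul (hom_pow a x r)
    have h2 := H.hs _ h1
    simp only [map_mul, map_pow, aeval_X, eval_X] at h2
    have h3 : w i ^ p * w k ^ q * w x ^ r ≠ 0 := by
      rw [h2]
      exact mul_ne_zero (mul_ne_zero (pow_ne_zero _ hi) (pow_ne_zero _ hk)) (pow_ne_zero _ hx)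
    refine ⟨fun hp h4 => h3 ?_, fun hq h4 => h3 ?_⟩
    · rw [h4, zero_pow hp, zero_mul, zero_mul]
    · rw [h4, zero_pow hq, mul_zero, zero_mul]
  obtain ⟨p, q, hpq⟩ := rep (hcop i k hik) (t := e) he
  have hpq1 : p * a i + q * a k = e := by rw [← hpq]; ring
  have h0 := hmon i p q 0 hi (by omega)
  refine ⟨fun x hx => ?_, fun h1 => ?_⟩
  · by_contra hcon
    push Not at hcon
    rcases hoth x hcon.1 hcon.2 with h | h
    · exact hx h.1
    obtain ⟨p', q', hpq'⟩ := rep (hcop i k hik) (t := e - a x) (by omega)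
    have hpq2 : p' * a i + q' * a k + 1 * a x = e := by
      have : p' * a i + q' * a k = a i * p' + a k * q' := by ring
      omega
    have h5 := hmon x p' q' 1 hx hpq2
    by_cases hwi : w i = 0
    · have hp : p = 0 := by
        by_contra h
        exact h0.1 h hwi
      have hp' : p' = 0 := by
        by_contra h
        exact h5.1 h hwi
      rw [hp, zero_mul, zero_add] at hpq1
      rw [hp', zero_mul, zero_add, one_mul] at hpq2
      have h9 : a k ∣ a x := (Nat.dvd_add_right (Nat.dvd_mul_left (a k) q')).1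
        (by rw [hpq2, ← hpq1]; exact Nat.dvd_mul_left _ _)
      have := (hcop k x (Ne.symm hcon.2)).eq_one_of_dvd h9
      omega
    · have hwk : w k = 0 := by
        by_contra h
        exact hn ⟨hwi, h⟩
      have hp : q = 0 := by
        by_contra h
        exact h0.2 h hwk
      have hp' : q' = 0 := by
        by_contra h
        exact h5.2 h hwk
      rw [hp, zero_mul, add_zero] at hpq1
      rw [hp', zero_mul, add_zero, one_mul] at hpq2
      have h9 : a i ∣ a x := (Nat.dvd_add_right (Nat.dvd_mul_left (a i) p')).1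
        (by rw [hpq2, ← hpq1]; exact Nat.dvd_mul_left _ _)
      have := (hcop i x (Ne.symm hcon.1)).eq_one_of_dvd h9
      omega
  · by_contra hcon
    push Not at hcon
    have hp : p = 0 := by
      by_contra h
      exact h0.1 h hcon.1
    have hq : q = 0 := by
      by_contra h
      exact h0.2 h hcon.2
    rw [hp, hq, zero_mul, zero_mul] at hpq1
    omega

omit [Fintype κ] [DecidableEq κ] in
/-- the exceptional case cannot happen in both directions -/
theorem no_two_exc (hcop : ∀ i k, i ≠ k → Nat.Coprime (a i) (a k)) (he : 1 ≤ e)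
    {v w : Fin N → ℂ} (H1 : Rel (B := ℂ) a e f v w) (H2 : Rel (B := ℂ) a e f w v)
    (h1 : Exc a J e v w) (h2 : Exc a J e w v) : False := by
  obtain ⟨i, k, hik, hi, hk, hai, hak, hJ, hT, hoth, he1, hn⟩ := h1
  obtain ⟨l, m, hlm, hl, hm, hal, ham, hJ', hT', hoth', he1', hn'⟩ := h2
  obtain ⟨s1, s2⟩ := exc_support hcop H1 hik hi hk hai hak hoth he1 hn
  obtain ⟨s1', s2'⟩ := exc_support hcop H2 hlm hl hm hal ham hoth' he1' hn'
  have hJJ : J l = J i := by
    rcases s2 he with h | h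
    · rcases s1' i h with h3 | h3
      · rw [h3]
      · rw [h3, hJ']
    · rcases s1' k h with h3 | h3
      · rw [← h3, hJ]
      · rw [hJ, h3, hJ']
  rw [isUnit_iff_ne_zero, isUnit_iff_ne_zero] at hn
  apply hn
  have h3 := hT l hal hJJ
  have h4 := hT m ham (hJ'.symm.trans hJJ)
  rcases h3 with h3 | h3 <;> rcases h4 with h4 | h4
  · exact absurd (h3.trans h4.symm) hlm
  · subst h3; subst h4; exact ⟨hl, hm⟩
  · subst h3; subst h4; exact ⟨hm, hl⟩
  · exact absurd (h3.trans h4.symm) hlm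

/-- points with values in `ℂ` -/
theorem main_points (hOB : OneBad) (hTD : TwoD) (hEl : Elim) (S : Sys a d f J u)
    (hE : ∑ j, (d j - 1) + 1 ≤ e + ∑ i, (a i - 1)) {v y : Fin N → ℂ} (hv : v ≠ 0)
    (H : Rel (B := ℂ) a e f v y) : ∃ T : ℂ, T ≠ 0 ∧ ∀ l, y l = T ^ a l * v l := by
  classical
  have he : 1 ≤ e := by
    have := S.G1 hE ∅
    omega
  obtain ⟨f', v', y', S', H', hv', hL, hN⟩ := hEl N κ ℂ _ _ a d e f J u v y S H hv
  have hfin : (∃ T : ℂ, T ≠ 0 ∧ ∀ l, y' l = T ^ a l * v' l) →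
      ∃ T : ℂ, T ≠ 0 ∧ ∀ l, y l = T ^ a l * v l := by
    rintro ⟨T, hT0, hT⟩
    refine ⟨T, hT0, finish S v y H.hfv H.hfy T ?_⟩
    intro l
    by_cases hl : 1 < a l ∧ u l = 1
    · exact Or.inr hl
    · left
      obtain ⟨h1, h2⟩ := hN l hl
      rw [← h2, hT, h1]
      rfl
  apply hfin
  have hb : ∃ s : MvPolynomial (Fin N) ℂ, IsWeightedHomogeneous a s e ∧ eval v' s ≠ 0 := by
    refine generated a S'.ha S'.hcop d S'.hd f' S'.hf (fun i hi => ⟨J i, ?_⟩) (by omega) v' hv'
      H'.hfv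
    intro h0
    have h1 := S'.hJ i hi
    apply h1
    have h2 : eval (Pi.single i 1 : Fin N → ℂ) (f' (J i)) =
        coeff (Finsupp.single i (u i)) (f' (J i)) := by
      rw [eval_eq', Finset.sum_eq_single (Finsupp.single i (u i))]
      · rw [Finset.prod_eq_one, mul_one]
        intro x _
        by_cases hx : x = i
        · subst hx
          rw [Pi.single_eq_same, one_pow]
        · rw [Finsupp.single_eq_of_ne hx, pow_zero]
      · intro m hm hne
        have hw := S'.hf (J i) (mem_support_iff.1 hm)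
        have hlt := Pool.Agent.H61.Fu.lt_of_ne_single S'.ha hw (S'.hu i hi) hne
        obtain ⟨x, hxi, hmx⟩ : ∃ x, x ≠ i ∧ m x ≠ 0 := by
          by_contra hcon
          push Not at hcon
          rw [weight_eq, Finset.sum_eq_single_of_mem i (Finset.mem_univ _)
            (fun k _ hk => by rw [hcon k hk, zero_mul]), ← S'.hu i hi] at hw
          have := Nat.eq_of_mul_eq_mul_right (S'.ha i) hw
          omega
        rw [Finset.prod_eq_zero (Finset.mem_univ x) (by
          rw [Pi.single_eq_of_ne hxi, zero_pow hmx]), mul_zero]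
      · intro h
        rw [notMem_support_iff.1 h, zero_mul]
    rw [← h2, h0]
  have hy' : y' ≠ 0 := by
    intro h0
    obtain ⟨s, hs, hs0⟩ := hb
    apply hs0
    have h1 := H'.hs s hs
    rw [h0, aeval_eq_eval] at h1
    have h2 : eval (fun i => (0 : ℂ) ^ a i * v' i) s = 0 ^ e * eval v' s := eval_scale a v' 0 hs
    have h3 : (fun i => (0 : ℂ) ^ a i * v' i) = 0 := by
      funext i
      have := S'.ha i
      rw [zero_pow (by omega), zero_mul]
      rfl
    rw [h3, zero_pow (by omega), zero_mul] at h2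
    have h4 : eval (0 : Fin N → ℂ) s = eval v' s := h1
    rw [← h4, h2]
  have H2 : Rel (B := ℂ) a e f' y' v' := ⟨fun s hs => by
      have := H'.hs s hs
      rw [aeval_eq_eval] at this ⊢
      exact this.symm, fun j => by
      have := H'.hfy j
      rwa [aeval_eq_eval] at this, fun j => by
      rw [aeval_eq_eval]
      exact H'.hfv j⟩
  rcases main_all hOB hTD S' hE H' hv' hL with ⟨T, hT⟩ | h1
  · exact ⟨T, T.ne_zero, hT⟩
  rcases main_all hOB hTD S' hE H2 hy' (fun l h1 h2 => (hL l h1 h2).symm) with ⟨T, hT⟩ | h2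
  · refine ⟨(T : ℂ)⁻¹, inv_ne_zero T.ne_zero, fun l => ?_⟩
    have h3 : v' l = (T : ℂ) ^ a l * y' l := hT l
    rw [h3, ← mul_assoc, ← mul_pow, inv_mul_cancel₀ T.ne_zero, one_pow, one_mul]
  · exact (no_two_exc S'.hcop he H' H2 h1 h2).elim

/-- points with values in the dual numbers -/
theorem main_dual (hOB : OneBad) (hTD : TwoD) (hEl : Elim) (S : Sys a d f J u)
    (hE : ∑ j, (d j - 1) + 1 ≤ e + ∑ i, (a i - 1)) {B : Type} [CommRing B] [Algebra ℂ B]
    {v : Fin N → ℂ} {y : Fin N → B} (hv : v ≠ 0)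
    (hunit : ∀ i, v i ≠ 0 → IsUnit (y i)) (H : Rel a e f v y) :
    ∃ T : Bˣ, ∀ l, y l = (T : B) ^ a l * algebraMap ℂ B (v l) := by
  obtain ⟨f', v', y', S', H', hv', hL, hN⟩ := hEl N κ B _ _ a d e f J u v y S H hv
  have hunit' : ∀ i, v' i ≠ 0 → IsUnit (y' i) := by
    intro i hi
    by_cases hl : 1 < a i ∧ u i = 1
    · exact absurd (hL i hl.1 hl.2).1 hi
    · obtain ⟨h1, h2⟩ := hN i hl
      rw [h2]
      exact hunit i (by rw [← h1]; exact hi)
  rcases main_all hOB hTD S' hE H' hv' hL with ⟨T, hT⟩ | ⟨i, k, -, hi, hk, -, -, -, -, -, -, hn⟩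
  · refine ⟨T, finish S v y H.hfv H.hfy T ?_⟩
    intro l
    by_cases hl : 1 < a l ∧ u l = 1
    · exact Or.inr hl
    · left
      obtain ⟨h1, h2⟩ := hN l hl
      rw [← h2, hT, h1]
  · exact absurd ⟨hunit' i hi, hunit' k hk⟩ hn

end Pool.Agent.K3h99.WF
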