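import Pool.Agent.K3h99.WF.Chip
import Pool.Agent.H61.Fu.Sys

/-!
# The values of the sections determine the point: the case distinction
-/

set_option autoImplicit false

namespace Pool.Agent.K3h99.WF

open MvPolynomial Pool.Agent.H39R2.Fuj Pool.Agent.R920.WC
open Pool.Agent.H61.Fu (comp prod_single lt_of_ne_single unitV exists_ratio root quad_num)

section

variable {N : ℕ} {κ : Type*} {B : Type*} [CommRing B] [Algebra ℂ B]
  {a : Fin N → ℕ} {d : κ → ℕ} {e : ℕ} {f : κ → MvPolynomial (Fin N) ℂ}
  {J : Fin N → κ} {u : Fin N → ℕ} {v : Fin N → ℂ} {y : Fin N → B}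

theorem Rel.mono2 (H : Rel a e f v y) (i k : Fin N) (p q : ℕ)
    (h : p * a i + q * a k = e) :
    y i ^ p * y k ^ q = algebraMap ℂ B (v i) ^ p * algebraMap ℂ B (v k) ^ q := by
  have h1 : IsWeightedHomogeneous a (X i ^ p * X k ^ q : MvPolynomial (Fin N) ℂ) e := by
    rw [← h]
    exact hom_two a i k p q
  have h2 := H.hs _ h1
  simpa using h2

theorem Rel.rat2 (H : Rel a e f v y) {i k : Fin N} (hi : v i ≠ 0) (hk : v k ≠ 0)
    {X Y : Bˣ} (hX : y i = X * algebraMap ℂ B (v i)) (hY : y k = Y * algebraMap ℂ B (v k))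
    (p q : ℕ) (h : p * a i + q * a k = e) : X ^ p * Y ^ q = 1 := by
  have h1 := H.mono2 i k p q h
  rw [hX, hY, mul_pow, mul_pow] at h1
  have h2 : IsUnit (algebraMap ℂ B (v i) ^ p * algebraMap ℂ B (v k) ^ q) :=
    ((unitV hi).pow p).mul ((unitV hk).pow q)
  have h3 : ((X : B) ^ p * (Y : B) ^ q) *
      (algebraMap ℂ B (v i) ^ p * algebraMap ℂ B (v k) ^ q) =
      1 * (algebraMap ℂ B (v i) ^ p * algebraMap ℂ B (v k) ^ q) := by
    rw [one_mul]
    refine Eq.trans ?_ h1
    ring
  have h4 := h2.mul_right_cancel h3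
  ext
  push_cast
  exact h4

theorem Rel.unit2 (H : Rel a e f v y) {i k : Fin N} (hi : v i ≠ 0) (hk : v k ≠ 0)
    (p q : ℕ) (h : (p + 1) * a i + q * a k = e) : IsUnit (y i) := by
  have h1 := H.mono2 i k (p + 1) q h
  have h2 : IsUnit (algebraMap ℂ B (v i) ^ (p + 1) * algebraMap ℂ B (v k) ^ q) :=
    ((unitV hi).pow (p + 1)).mul ((unitV hk).pow q)
  rw [← h1] at h2
  have h3 := isUnit_of_mul_isUnit_left h2
  rw [pow_succ] at h3
  exact isUnit_of_mul_isUnit_right h3

theorem sum_pair' {i k : Fin N} (hik : i ≠ k) (p q : ℕ) :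
    ∑ x ∈ ({i, k} : Finset (Fin N)), ((if x = i then p else 0) + (if x = k then q else 0)) * a x =
      p * a i + q * a k := by
  rw [Finset.sum_pair hik, if_pos rfl, if_neg hik, if_neg hik.symm, if_pos rfl]
  ring

/-- two coordinates determine the others -/
theorem Rel.pair2 (S : Sys a d f J u) (H : Rel a e f v y) {i k : Fin N} (hik : i ≠ k)
    (hi : v i ≠ 0) (hk : v k ≠ 0) {X Y : Bˣ} (hX : y i = X * algebraMap ℂ B (v i))
    (hY : y k = Y * algebraMap ℂ B (v k)) (hXY : X ^ a k = Y ^ a i)
    (he : (a i - 1) * (a k - 1) ≤ e)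
    (hoth : ∀ l, l ≠ i → l ≠ k → (v l = 0 ∧ y l = 0) ∨ a l + (a i - 1) * (a k - 1) ≤ e) :
    ∃ T : Bˣ, ∀ l, y l = (T : B) ^ a l * algebraMap ℂ B (v l) := by
  classical
  obtain ⟨T, hTX, hTY⟩ := root (S.hcop i k hik) hXY
  refine ⟨T, H.of_root S (C := {i, k}) ?_ T ?_ ?_ ?_⟩
  · intro x hx
    rcases Finset.mem_insert.1 hx with h | h
    · rw [h]; exact hi
    · rw [Finset.mem_singleton.1 h]; exact hk
  · intro x hx
    rcases Finset.mem_insert.1 hx with h | h
    · rw [h, hX, hTX, Units.val_pow_eq_pow_val]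
    · rw [Finset.mem_singleton.1 h, hY, hTY, Units.val_pow_eq_pow_val]
  · obtain ⟨p, q, hpq⟩ := rep (S.hcop i k hik) (t := e) he
    refine ⟨fun x => (if x = i then p else 0) + (if x = k then q else 0), ?_⟩
    rw [sum_pair' hik, ← hpq]
    ring
  · intro l hl
    have hli : l ≠ i := fun h => hl (by rw [h]; simp)
    have hlk : l ≠ k := fun h => hl (by rw [h]; simp)
    rcases hoth l hli hlk with h | h
    · exact Or.inl h
    · right; right
      obtain ⟨p, q, hpq⟩ := rep (S.hcop i k hik) (t := e - a l) (by omega)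
      refine ⟨fun x => (if x = i then p else 0) + (if x = k then q else 0), ?_⟩
      rw [sum_pair' hik]
      have : p * a i + q * a k = a i * p + a k * q := by ring
      omega

/-- `e` is large -/
theorem Rel.roomy2 (S : Sys a d f J u) (H : Rel a e f v y) {i k : Fin N} (hik : i ≠ k)
    (hi : v i ≠ 0) (hk : v k ≠ 0)
    (he : a i * a k + (a i - 1) * (a k - 1) ≤ e)
    (hoth : ∀ l, l ≠ i → l ≠ k → (v l = 0 ∧ y l = 0) ∨ a l + (a i - 1) * (a k - 1) ≤ e) :
    ∃ T : Bˣ, ∀ l, y l = (T : B) ^ a l * algebraMap ℂ B (v l) := by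
  obtain ⟨p, q, hpq⟩ := rep (S.hcop i k hik) (t := e - a i * a k) (by omega)
  have hai := S.ha i
  have hak := S.ha k
  have hr1 : (p + a k) * a i + q * a k = e := by
    have h1 : (p + a k) * a i + q * a k = a i * p + a k * q + a i * a k := by ring
    omega
  have hr2 : p * a i + (q + a i) * a k = e := by
    have h1 : p * a i + (q + a i) * a k = a i * p + a k * q + a i * a k := by ring
    omega
  have hyi : IsUnit (y i) := by
    refine H.unit2 (k := k) hi hk (p + a k - 1) q ?_
    rw [show p + a k - 1 + 1 = p + a k by omega]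
    exact hr1
  have hyk : IsUnit (y k) := by
    refine H.unit2 (k := i) hk hi (q + a i - 1) p ?_
    rw [show q + a i - 1 + 1 = q + a i by omega, add_comm]
    exact hr2
  obtain ⟨X, hX⟩ := exists_ratio hi hyi
  obtain ⟨Y, hY⟩ := exists_ratio hk hyk
  have h1 := H.rat2 hi hk hX hY _ _ hr1
  have h2 := H.rat2 hi hk hX hY _ _ hr2
  refine H.pair2 S hik hi hk hX hY ?_ (by omega) hoth
  rw [← h2, pow_add, pow_add] at h1
  have h3 : X ^ p * Y ^ q * X ^ a k = X ^ p * Y ^ q * Y ^ a i := by
    rw [mul_right_comm, h1, mul_assoc]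
  exact mul_left_cancel h3

end

variable {N : ℕ} {κ : Type} [Fintype κ] [DecidableEq κ] {B : Type} [CommRing B] [Algebra ℂ B]
  {a : Fin N → ℕ} {d : κ → ℕ} {e : ℕ} {f : κ → MvPolynomial (Fin N) ℂ}
  {J : Fin N → κ} {u : Fin N → ℕ} {v : Fin N → ℂ} {y : Fin N → B}

/-- the exceptional case: two coordinates of `v` in a tight class, one of which is not a unit for
`y` -/
def Exc (a : Fin N → ℕ) (J : Fin N → κ) (e : ℕ) (v : Fin N → ℂ) (y : Fin N → B) : Prop :=
  ∃ i k, i ≠ k ∧ v i ≠ 0 ∧ v k ≠ 0 ∧ 1 < a i ∧ 1 < a k ∧ J i = J k ∧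
    (∀ l, 1 < a l → J l = J i → l = i ∨ l = k) ∧
    (∀ l, l ≠ i → l ≠ k → (v l = 0 ∧ y l = 0) ∨ a l + (a i - 1) * (a k - 1) ≤ e) ∧
    (a i - 1) * (a k - 1) ≤ e ∧ ¬ (IsUnit (y i) ∧ IsUnit (y k))

omit [CommRing B] [Algebra ℂ B] in
/-- the contributions of different classes -/
theorem Sys.Gsum (S : Sys a d f J u) (hE : ∑ j, (d j - 1) + 1 ≤ e + ∑ i, (a i - 1))
    (I : Finset (Fin N)) (hI : ∀ i ∈ I, 1 < a i)
    (hinj : ∀ i ∈ I, ∀ k ∈ I, J i = J k → i = k) (Q : Finset κ) (hQ : ∀ i ∈ I, J i ∉ Q) :
    ∑ i ∈ I, (u i - 1) * (a i - 1) + ∑ j ∈ Q, GG a d J j + 1 ≤ e := by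
  have h1 := S.G1 hE (I.image J ∪ Q)
  rw [Finset.sum_union (by
    rw [Finset.disjoint_left]
    intro j hj
    obtain ⟨i, hi, rfl⟩ := Finset.mem_image.1 hj
    exact hQ i hi), Finset.sum_image hinj] at h1
  have h2 : ∑ i ∈ I, (u i - 1) * (a i - 1) ≤ ∑ i ∈ I, GG a d J (J i) :=
    Finset.sum_le_sum fun i hi => S.G2 (hI i hi)
  omega

/-- four weights in two tight classes -/
theorem Rel.quad2 (S : Sys a d f J u) (hE : ∑ j, (d j - 1) + 1 ≤ e + ∑ i, (a i - 1))
    (H : Rel a e f v y) (hlin : ∀ l, 1 < a l → u l = 1 → v l = 0 ∧ y l = 0)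
    {i k l m : Fin N} (hik : i ≠ k)
    (hlm : l ≠ m) (hi : v i ≠ 0) (hl : v l ≠ 0) (hai : 1 < a i) (hak : 1 < a k) (hal : 1 < a l)
    (ham : 1 < a m) (hJ : J i = J k) (hJ' : J l = J m) (hne : J i ≠ J l)
    (hT : ∀ x, 1 < a x → J x = J i → x = i ∨ x = k)
    (hT' : ∀ x, 1 < a x → J x = J l → x = l ∨ x = m) (hlt : a i < a k) (hlt' : a l < a m) :
    ∃ T : Bˣ, ∀ l, y l = (T : B) ^ a l * algebraMap ℂ B (v l) := by
  have h1 := (S.G3 hik hai hak hJ).1
  have h2 := (S.G3 hlm hal ham hJ').1
  have h3 := S.G1 hE {J i, J l}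
  rw [Finset.sum_pair hne] at h3
  obtain ⟨h4, h5, h6⟩ := quad_num hai hal hlt hlt'
  have hil : i ≠ l := fun h => hne (by rw [h])
  refine H.roomy2 S hil hi hl (by omega) (fun x hxi hxl => ?_)
  by_cases hx : 1 < a x
  · by_cases hux : u x = 1
    · exact Or.inl (hlin x hx hux)
    right
    have hux1 := S.upos hx
    by_cases hxJ : J x = J i
    · rcases hT x hx hxJ with h | h
      · exact absurd h hxi
      · subst h; omega
    by_cases hxJ' : J x = J l
    · rcases hT' x hx hxJ' with h | h
      · exact absurd h hxl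
      · subst h; omega
    · have h7 := S.G1 hE {J i, J l, J x}
      rw [Finset.sum_insert (by
        rw [Finset.mem_insert, Finset.mem_singleton, not_or]
        exact ⟨hne, fun h => hxJ h.symm⟩), Finset.sum_pair (fun h => hxJ' h.symm)] at h7
      have h8 := S.G2 hx
      have h9 : 1 * (a x - 1) ≤ (u x - 1) * (a x - 1) := Nat.mul_le_mul_right _ (by omega)
      omega
  · right
    have := S.ha x
    omega

/-- the main theorem, up to the exceptional case -/
theorem main_all (hOB : OneBad) (hTD : TwoD) (S : Sys a d f J u)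
    (hE : ∑ j, (d j - 1) + 1 ≤ e + ∑ i, (a i - 1)) (H : Rel a e f v y) (hv : v ≠ 0)
    (hlin : ∀ l, 1 < a l → u l = 1 → v l = 0 ∧ y l = 0) :
    (∃ T : Bˣ, ∀ l, y l = (T : B) ^ a l * algebraMap ℂ B (v l)) ∨ Exc a J e v y := by
  classical
  have hG1 := S.G1 hE
  by_cases h1 : ∃ i, v i ≠ 0 ∧ a i = 1
  · obtain ⟨i, hi, hai⟩ := h1
    left
    refine H.weight_one S hi hai (by have := hG1 ∅; omega) ?_
    intro l hl hul
    have h2 := hG1 {J l}
    rw [Finset.sum_singleton] at h2
    have h3 := S.G2 hl
    have h4 : 1 * (a l - 1) ≤ (u l - 1) * (a l - 1) := Nat.mul_le_mul_right _ (by omega)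
    omega
  push Not at h1
  have hS1 : ∀ l, v l ≠ 0 → 1 < a l := fun l hl => by
    have := h1 l hl
    have := S.ha l
    omega
  have hS2 : ∀ l, v l ≠ 0 → 1 < u l := by
    intro l hl
    have h2 := S.upos (hS1 l hl)
    by_contra hcon
    exact hl (hlin l (hS1 l hl) (by omega)).1
  by_cases hdup : ∃ i k, i ≠ k ∧ v i ≠ 0 ∧ v k ≠ 0 ∧ J i = J k
  · -- the other coordinates
    have hothers : ∀ i k, i ≠ k → 1 < a i → 1 < a k → J i = J k → ∀ l, l ≠ i → l ≠ k →
        (v l = 0 ∧ y l = 0) ∨ a l + (a i - 1) * (a k - 1) ≤ e := by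
      intro i k hik hai hak hJ l hli hlk
      obtain ⟨g1, g2, -⟩ := S.G3 hik hai hak hJ
      have h2 := hG1 {J i}
      rw [Finset.sum_singleton] at h2
      by_cases hl : 1 < a l
      · by_cases hul : u l = 1
        · exact Or.inl (hlin l hl hul)
        right
        by_cases hJl : J l = J i
        · have := g2 l hli hlk hl hJl
          omega
        · have h3 := hG1 {J i, J l}
          rw [Finset.sum_pair (fun h => hJl h.symm)] at h3
          have h4 := S.G2 hl
          have h5 := S.upos hl
          have h6 : 1 * (a l - 1) ≤ (u l - 1) * (a l - 1) := Nat.mul_le_mul_right _ (by omega)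
          omega
      · right
        omega
    have hroom : ∀ i k, i ≠ k → v i ≠ 0 → v k ≠ 0 → J i = J k →
        2 * (a i * a k) ≤ GG a d J (J i) + a i + a k →
        ∃ T : Bˣ, ∀ l, y l = (T : B) ^ a l * algebraMap ℂ B (v l) := by
      intro i k hik hi hk hJ hr
      have hai := hS1 i hi
      have hak := hS1 k hk
      have h2 := hG1 {J i}
      rw [Finset.sum_singleton] at h2
      refine H.roomy2 S hik hi hk ?_ (hothers i k hik hai hak hJ)
      have h4 : (a i - 1) * (a k - 1) + a i + a k = a i * a k + 1 := by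
        obtain ⟨p, hp⟩ : ∃ p, a i = p + 1 := ⟨a i - 1, by omega⟩
        obtain ⟨q, hq⟩ : ∃ q, a k = q + 1 := ⟨a k - 1, by omega⟩
        rw [hp, hq]
        simp only [Nat.add_sub_cancel]
        ring
      omega
    obtain ⟨i, k, hik, hi, hk, hJ⟩ := hdup
    have hai := hS1 i hi
    have hak := hS1 k hk
    obtain ⟨g1, g2, g3⟩ := S.G3 hik hai hak hJ
    rcases g3 with hr | ⟨hD, hT⟩
    · exact Or.inl (hroom i k hik hi hk hJ hr)
    by_cases hU : IsUnit (y i) ∧ IsUnit (y k)
    swap
    · refine Or.inr ⟨i, k, hik, hi, hk, hai, hak, hJ, hT, hothers i k hik hai hak hJ, ?_, hU⟩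
      have h2 := hG1 {J i}
      rw [Finset.sum_singleton] at h2
      omega
    left
    by_cases h3 : ∃ l m, l ≠ m ∧ v l ≠ 0 ∧ v m ≠ 0 ∧ J l = J m ∧ J l ≠ J i
    · obtain ⟨l, m, hlm, hl, hm, hJlm, hJl⟩ := h3
      have hal := hS1 l hl
      have ham := hS1 m hm
      rcases (S.G3 hlm hal ham hJlm).2.2 with hr | ⟨hD', hT'⟩
      · exact hroom l m hlm hl hm hJlm hr
      have hne1 : a i ≠ a k := fun h => by
        have := (S.hcop i k hik).eq_one_of_dvd ⟨1, by rw [h, mul_one]⟩
        omega
      have hne2 : a l ≠ a m := fun h => by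
        have := (S.hcop l m hlm).eq_one_of_dvd ⟨1, by rw [h, mul_one]⟩
        omega
      have hJm : J m ≠ J i := fun h => hJl (hJlm.trans h)
      have hTs : ∀ x, 1 < a x → J x = J k → x = k ∨ x = i := fun x hx hJx =>
        (hT x hx (hJx.trans hJ.symm)).symm
      have hTs' : ∀ x, 1 < a x → J x = J m → x = m ∨ x = l := fun x hx hJx =>
        (hT' x hx (hJx.trans hJlm.symm)).symm
      rcases Nat.lt_or_gt_of_ne hne1 with h4 | h4 <;> rcases Nat.lt_or_gt_of_ne hne2 with h5 | h5
      · exact H.quad2 S hE hlin hik hlm hi hl hai hak hal ham hJ hJlm (Ne.symm hJl) hT hT' h4 h5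
      · exact H.quad2 S hE hlin hik hlm.symm hi hm hai hak ham hal hJ hJlm.symm (Ne.symm hJm) hT
          hTs' h4 h5
      · exact H.quad2 S hE hlin hik.symm hlm hk hl hak hai hal ham hJ.symm hJlm
          (fun h => hJl (h.symm.trans hJ.symm)) hTs hT' h4 h5
      · exact H.quad2 S hE hlin hik.symm hlm.symm hk hm hak hai ham hal hJ.symm hJlm.symm
          (fun h => hJm (h.symm.trans hJ.symm)) hTs hTs' h4 h5
    · push Not at h3
      have hcl : ∀ l, v l ≠ 0 → l ≠ i → l ≠ k → J l ≠ J i := by
        intro l hl hli hlk hJl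
        rcases hT l (hS1 l hl) hJl with h | h
        · exact hli h
        · exact hlk h
      refine hTD N κ B _ _ a d e f J u v y S H hS1 hS2 i k hik hi hk hU.1 hU.2
        (hothers i k hik hai hak hJ) ?_ ⟨J i, u i, ?_, S.hu i hai, S.hJ i hai⟩
      · have h4 := S.Gsum hE (Finset.univ.filter fun l => v l ≠ 0 ∧ l ≠ i ∧ l ≠ k)
          (fun l hl => hS1 l (Finset.mem_filter.1 hl).2.1)
          (by
            intro l hl m hm hlm
            by_contra hne
            have hl' := (Finset.mem_filter.1 hl).2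
            have hm' := (Finset.mem_filter.1 hm).2
            exact hcl l hl'.1 hl'.2.1 hl'.2.2 (h3 l m hne hl'.1 hm'.1 hlm))
          {J i} (by
            intro l hl
            have hl' := (Finset.mem_filter.1 hl).2
            rw [Finset.mem_singleton]
            exact hcl l hl'.1 hl'.2.1 hl'.2.2)
        rw [Finset.sum_singleton] at h4
        omega
      · have h4 := S.hu i hai
        rw [hD, mul_comm (a i)] at h4
        have h5 := Nat.eq_of_mul_eq_mul_right (S.ha i) h4
        rw [h5]
        omega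
  · push Not at hdup
    left
    have hinj : ∀ i k, v i ≠ 0 → v k ≠ 0 → J i = J k → i = k := by
      intro i k hi hk h
      by_contra hne
      exact hdup i k hne hi hk h
    set I : Finset (Fin N) := Finset.univ.filter fun i => v i ≠ 0 with hI
    have hmemI : ∀ i, i ∈ I ↔ v i ≠ 0 := fun i => by simp [hI]
    have hI1 : ∀ i ∈ I, 1 < a i := fun i hi => hS1 i ((hmemI i).1 hi)
    have hIne : I.Nonempty := by
      by_contra h
      rw [Finset.not_nonempty_iff_eq_empty] at h
      refine hv (funext fun i => ?_)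
      by_contra hi
      have := (hmemI i).2 hi
      rw [h] at this
      exact absurd this (Finset.notMem_empty i)
    obtain ⟨C, hCI, hC⟩ := exists_minimal (a := a) (ℓ := u) (I := I)
      ⟨hIne, fun i hi => S.relation H.hfv I hmemI (hI1 i hi) hi⟩
    have hCv : ∀ i ∈ C, v i ≠ 0 := fun i hi => (hmemI i).1 (hCI hi)
    have hC1 : ∀ i ∈ C, 1 < a i := fun i hi => hI1 i (hCI hi)
    have hCinj : ∀ i ∈ C, ∀ k ∈ C, J i = J k → i = k := fun i hi k hk h =>
      hinj i k (hCv i hi) (hCv k hk) h
    -- divisors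
    have hdv : ∀ s, 1 < a s → ∀ l, l ≠ s → 1 < a l → J l = J s → a l ≤ u s := by
      intro s hs l hls hl hJl
      have h2 : a l ∣ u s * a s := by
        rw [S.hu s hs, ← hJl, ← S.hu l hl]
        exact Nat.dvd_mul_left _ _
      exact Nat.le_of_dvd (S.upos hs) ((S.hcop l s hls).dvd_of_dvd_mul_right h2)
    rcases Nat.lt_or_ge C.card 3 with hcard | hcard
    · -- two elements
      obtain ⟨p, hp⟩ := hC.1.1
      obtain ⟨mp, hmp, q, hq, hqp, hmpq⟩ := hC.1.2 p hp
      have hCpq : C = {p, q} := by
        refine (Finset.eq_of_subset_of_card_le ?_ ?_).symm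
        · intro x hx
          rcases Finset.mem_insert.1 hx with h | h
          · rw [h]; exact hp
          · rw [Finset.mem_singleton.1 h]; exact hq
        · rw [Finset.card_pair hqp.symm]
          omega
      have hvp := hCv p hp
      have hvq := hCv q hq
      have hap := hC1 p hp
      have haq := hC1 q hq
      have hJpq : J p ≠ J q := fun h => hqp (hinj p q hvp hvq h).symm
      -- `u_p ≥ a_q`
      have hge : ∀ s t : Fin N, s ≠ t → 1 < a s → 1 < a t → C = {s, t} → a t ≤ u s := by
        intro s t hst hs ht hCst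
        have hsC : s ∈ C := by rw [hCst]; simp
        obtain ⟨m, hm, k, hk, hks, hmk⟩ := hC.1.2 s hsC
        have hkt : k = t := by
          rw [hCst] at hk
          rcases Finset.mem_insert.1 hk with h | h
          · exact absurd h hks
          · exact Finset.mem_singleton.1 h
        subst hkt
        rw [hCst, Finset.sum_pair hst] at hm
        have h2 : a s ∣ m k * a k :=
          (Nat.dvd_add_right (Nat.dvd_mul_left (a s) (m s))).1
            (by rw [hm]; exact Nat.dvd_mul_left _ _)
        have h3 : a s ∣ m k := (S.hcop s k hst).dvd_of_dvd_mul_right h2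
        have h4 := Nat.le_of_dvd (Nat.pos_of_ne_zero hmk) h3
        have h5 : a s * a k ≤ m k * a k := Nat.mul_le_mul_right _ h4
        have h6 : a k * a s ≤ u s * a s := by
          rw [mul_comm (a k)]
          omega
        exact Nat.le_of_mul_le_mul_right h6 (by omega)
      have hup := hge p q hqp.symm hap haq hCpq
      have huq := hge q p hqp haq hap (by rw [hCpq, Finset.pair_comm])
      have hsum2 := S.Gsum hE {p, q} (by
        intro x hx
        rcases Finset.mem_insert.1 hx with h | h
        · rw [h]; exact hap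
        · rw [Finset.mem_singleton.1 h]; exact haq) (by rw [← hCpq]; exact hCinj) ∅ (by simp)
      rw [Finset.sum_pair hqp.symm, Finset.sum_empty] at hsum2
      have hb1 : (a q - 1) * (a p - 1) ≤ (u p - 1) * (a p - 1) :=
        Nat.mul_le_mul_right _ (by omega)
      have hb2 : (a p - 1) * (a q - 1) ≤ (u q - 1) * (a q - 1) :=
        Nat.mul_le_mul_right _ (by omega)
      have hb3 : (a q - 1) * (a p - 1) = (a p - 1) * (a q - 1) := mul_comm _ _
      have hge1 : ∀ x : ℕ, ∀ w : ℕ, 1 < w → x ≤ x * (w - 1) := fun x w hw =>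
        Nat.le_mul_of_pos_right _ (by omega)
      have hoth : ∀ l, l ≠ p → l ≠ q →
          (v l = 0 ∧ y l = 0) ∨ a l + (a p - 1) * (a q - 1) ≤ e := by
        intro l hlp hlq
        by_cases hl : 1 < a l
        · by_cases hul : u l = 1
          · exact Or.inl (hlin l hl hul)
          right
          by_cases hJl : J l = J p
          · have h2 := hdv p hap l hlp hl hJl
            have h3 := hge1 (u p - 1) (a p) hap
            omega
          by_cases hJl' : J l = J q
          · have h2 := hdv q haq l hlq hl hJl'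
            have h3 := hge1 (u q - 1) (a q) haq
            omega
          · have h2 := S.Gsum hE {p, q} (by
              intro x hx
              rcases Finset.mem_insert.1 hx with h | h
              · rw [h]; exact hap
              · rw [Finset.mem_singleton.1 h]; exact haq) (by rw [← hCpq]; exact hCinj) {J l} (by
                intro x hx
                rw [Finset.mem_singleton]
                rcases Finset.mem_insert.1 hx with h | h
                · rw [h]; exact Ne.symm hJl
                · rw [Finset.mem_singleton.1 h]; exact Ne.symm hJl')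
            rw [Finset.sum_pair hqp.symm, Finset.sum_singleton] at h2
            have h4 := S.G2 hl
            have h5 := S.upos hl
            have h6 : 1 * (a l - 1) ≤ (u l - 1) * (a l - 1) :=
              Nat.mul_le_mul_right _ (by omega)
            omega
        · right
          omega
      -- units
      have hpq1 : a p - 1 ≤ (a p - 1) * (a q - 1) := hge1 _ _ haq
      have hpq2 : a q - 1 ≤ (a p - 1) * (a q - 1) := by
        rw [mul_comm]
        exact hge1 _ _ hap
      have hyp : IsUnit (y p) := by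
        obtain ⟨x, z, hxz⟩ := rep (S.hcop p q hqp.symm) (t := e - a p) (by omega)
        refine H.unit2 hvp hvq x z ?_
        have : (x + 1) * a p + z * a q = a p * x + a q * z + a p := by ring
        omega
      have hyq : IsUnit (y q) := by
        obtain ⟨x, z, hxz⟩ := rep (S.hcop p q hqp.symm) (t := e - a q) (by omega)
        refine H.unit2 hvq hvp z x ?_
        have : (z + 1) * a q + x * a p = a p * x + a q * z + a q := by ring
        omega
      -- the sum
      have hsumS : ∀ s t : Fin N, C = {s, t} → s ≠ t → a t ≤ u s → 1 < a s →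
          ∑ l ∈ Finset.univ.filter (fun l => v l ≠ 0 ∧ l ≠ s ∧ l ≠ t), (u l - 1) * (a l - 1) +
            (a s - 1) * (a t - 1) + 1 ≤ e := by
        intro s t hCst hst hts has
        have hsC : s ∈ C := by rw [hCst]; simp
        have h2 := S.Gsum hE (insert s
          (Finset.univ.filter fun l => v l ≠ 0 ∧ l ≠ s ∧ l ≠ t)) (by
            intro x hx
            rcases Finset.mem_insert.1 hx with h | h
            · rw [h]; exact has
            · exact hS1 x (Finset.mem_filter.1 h).2.1)
          (by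
            intro x hx z hz hxz
            refine hinj x z ?_ ?_ hxz
            · rcases Finset.mem_insert.1 hx with h | h
              · rw [h]; exact hCv s hsC
              · exact (Finset.mem_filter.1 h).2.1
            · rcases Finset.mem_insert.1 hz with h | h
              · rw [h]; exact hCv s hsC
              · exact (Finset.mem_filter.1 h).2.1) ∅ (by simp)
        rw [Finset.sum_empty, Finset.sum_insert (by simp)] at h2
        have h3 : (a t - 1) * (a s - 1) ≤ (u s - 1) * (a s - 1) :=
          Nat.mul_le_mul_right _ (by omega)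
        rw [mul_comm (a t - 1)] at h3
        omega
      by_cases hp2 : u p < 2 * a q
      · exact hTD N κ B _ _ a d e f J u v y S H hS1 hS2 p q hqp.symm hvp hvq hyp hyq hoth
          (hsumS p q hCpq hqp.symm hup hap) ⟨J p, u p, hp2, S.hu p hap, S.hJ p hap⟩
      by_cases hq2 : u q < 2 * a p
      · exact hTD N κ B _ _ a d e f J u v y S H hS1 hS2 q p hqp hvq hvp hyq hyp
          (fun l hl1 hl2 => by
            rw [mul_comm (a q - 1)]
            exact hoth l hl2 hl1)
          (hsumS q p (by rw [hCpq, Finset.pair_comm]) hqp huq haq)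
          ⟨J q, u q, hq2, S.hu q haq, S.hJ q haq⟩
      · -- roomy
        refine H.roomy2 S hqp.symm hvp hvq ?_ hoth
        obtain ⟨x, hx⟩ : ∃ x, a p = x + 2 := ⟨a p - 2, by omega⟩
        obtain ⟨z, hz⟩ : ∃ z, a q = z + 2 := ⟨a q - 2, by omega⟩
        have h4 : (2 * a q - 1) * (a p - 1) ≤ (u p - 1) * (a p - 1) :=
          Nat.mul_le_mul_right _ (by omega)
        have h5 : (2 * a p - 1) * (a q - 1) ≤ (u q - 1) * (a q - 1) :=
          Nat.mul_le_mul_right _ (by omega)
        rw [hx, hz] at h4 h5 ⊢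
        have e1 : 2 * (z + 2) - 1 = 2 * z + 3 := by omega
        have e2 : 2 * (x + 2) - 1 = 2 * x + 3 := by omega
        have e3 : x + 2 - 1 = x + 1 := by omega
        have e4 : z + 2 - 1 = z + 1 := by omega
        rw [e1, e3] at h4
        rw [e2, e4] at h5
        rw [e3, e4]
        rw [hx, hz, e3, e4] at hsum2
        nlinarith [Nat.zero_le (x * z)]
    · -- at least three elements
      have hsumC := S.Gsum hE C hC1 hCinj ∅ (by simp)
      rw [Finset.sum_empty] at hsumC
      refine H.chip hOB S hC hCv hC1 hcard (by omega) ?_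
      intro l hl
      by_cases hal : 1 < a l
      · by_cases hul : u l = 1
        · exact Or.inr (Or.inl ⟨hal, hul⟩)
        right; right
        by_cases hJl : ∃ s ∈ C, J l = J s
        · obtain ⟨s, hs, hJs⟩ := hJl
          right
          exact ⟨s, hs, hdv s (hC1 s hs) l (fun h => hl (h ▸ hs)) hal hJs⟩
        · push Not at hJl
          left
          have h2 := S.Gsum hE C hC1 hCinj {J l} (by
            intro x hx
            rw [Finset.mem_singleton]
            exact fun h => hJl x hx h.symm)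
          rw [Finset.sum_singleton] at h2
          have h4 := S.G2 hal
          have h5 := S.upos hal
          have h6 : 1 * (a l - 1) ≤ (u l - 1) * (a l - 1) :=
            Nat.mul_le_mul_right _ (by omega)
          omega
      · right; right; left
        have := S.ha l
        omega

end Pool.Agent.K3h99.WF
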