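import Pool.Agent.K3h99.WF.Stm
import Pool.Agent.H61.Fu.Num

/-!
# Numerical facts about weighted complete intersections with pairwise coprime weights
-/

set_option autoImplicit false

namespace Pool.Agent.K3h99.WF

open MvPolynomial Pool.Agent.R920.WC
open Pool.Agent.H61.Fu (sum_succ_le_prod prod_dvd' one_weight two_weights)

variable {N : ℕ} {κ : Type*} [Fintype κ] [DecidableEq κ]

/-- the weights greater than one assigned to `j` -/
def TT (a : Fin N → ℕ) (J : Fin N → κ) (j : κ) : Finset (Fin N) :=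
  Finset.univ.filter fun i => 1 < a i ∧ J i = j

/-- the contribution of `j` -/
def GG (a : Fin N → ℕ) (d : κ → ℕ) (J : Fin N → κ) (j : κ) : ℕ :=
  d j - 1 - ∑ i ∈ TT a J j, (a i - 1)

omit [Fintype κ] in
theorem mem_TT {a : Fin N → ℕ} {J : Fin N → κ} {j : κ} {i : Fin N} :
    i ∈ TT a J j ↔ 1 < a i ∧ J i = j := by simp [TT]

variable {a : Fin N → ℕ} {d : κ → ℕ} {e : ℕ} {f : κ → MvPolynomial (Fin N) ℂ}
  {J : Fin N → κ} {u : Fin N → ℕ} (S : Sys a d f J u)

include S

omit [Fintype κ] in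
theorem Sys.cT (j : κ) : ∀ i ∈ TT a J j, ∀ k ∈ TT a J j, i ≠ k → Nat.Coprime (a i) (a k) :=
  fun i _ k _ h => S.hcop i k h

omit [Fintype κ] in
theorem Sys.dT (j : κ) : ∀ i ∈ TT a J j, a i ∣ d j := by
  intro i hi
  obtain ⟨h1, h2⟩ := mem_TT.1 hi
  rw [← h2, ← S.hu i h1]
  exact Nat.dvd_mul_left _ _

omit [Fintype κ] in
theorem Sys.le (j : κ) : ∑ i ∈ TT a J j, (a i - 1) + 1 ≤ d j := by
  have h1 := sum_succ_le_prod (TT a J j) a (fun i _ => S.ha i)
  have h2 := Nat.le_of_dvd (S.hd j) (prod_dvd' (TT a J j) a (d j) (S.cT j) (S.dT j))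
  omega

omit [Fintype κ] in
theorem Sys.upos {i : Fin N} (hi : 1 < a i) : 1 ≤ u i := by
  have h1 := S.hu i hi
  have h2 := S.hd (J i)
  by_contra hcon
  have : u i = 0 := by omega
  rw [this, zero_mul] at h1
  omega

theorem Sys.G1 (hE : ∑ j, (d j - 1) + 1 ≤ e + ∑ i, (a i - 1)) (Q : Finset κ) :
    ∑ j ∈ Q, GG a d J j + 1 ≤ e := by
  have h1 : ∑ i, (a i - 1) = ∑ j, ∑ i ∈ TT a J j, (a i - 1) := by
    have h1 : ∑ i, (a i - 1) = ∑ i ∈ Finset.univ.filter (fun i => 1 < a i), (a i - 1) := by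
      rw [Finset.sum_filter]
      refine Finset.sum_congr rfl fun i _ => ?_
      by_cases h : 1 < a i
      · rw [if_pos h]
      · rw [if_neg h]
        have := S.ha i
        omega
    rw [h1, ← Finset.sum_fiberwise (s := Finset.univ.filter (fun i => 1 < a i)) (g := J)]
    refine Finset.sum_congr rfl fun j _ => ?_
    rw [Finset.filter_filter]
    rfl
  have h2 : ∑ j, GG a d J j + ∑ j, ∑ i ∈ TT a J j, (a i - 1) = ∑ j, (d j - 1) := by
    rw [← Finset.sum_add_distrib]
    refine Finset.sum_congr rfl fun j _ => ?_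
    have := S.le j
    unfold GG
    omega
  have h3 : ∑ j ∈ Q, GG a d J j ≤ ∑ j, GG a d J j :=
    Finset.sum_le_sum_of_subset (Finset.subset_univ _)
  omega

omit [Fintype κ] in
theorem Sys.G2 {i : Fin N} (hi : 1 < a i) : (u i - 1) * (a i - 1) ≤ GG a d J (J i) := by
  have h1 := one_weight (TT a J (J i)) a (d (J i)) (S.hd _) (fun i _ => S.ha i) (S.cT _) (S.dT _)
    (mem_TT.2 ⟨hi, rfl⟩) (S.hu i hi)
  unfold GG
  omega

omit [Fintype κ] in
theorem Sys.G3 {i k : Fin N} (hik : i ≠ k) (hi : 1 < a i) (hk : 1 < a k) (hJ : J i = J k) :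
    (a i - 1) * (a k - 1) ≤ GG a d J (J i) ∧
    (∀ l, l ≠ i → l ≠ k → 1 < a l → J l = J i →
      a l + (a i - 1) * (a k - 1) ≤ GG a d J (J i) + 1) ∧
    (2 * (a i * a k) ≤ GG a d J (J i) + a i + a k ∨
      (d (J i) = a i * a k ∧ ∀ l, 1 < a l → J l = J i → l = i ∨ l = k)) := by
  classical
  obtain ⟨w, hw, h1, h2, h3⟩ := two_weights (TT a J (J i)) a (d (J i)) (S.hd _)
    (fun i _ => S.ha i) (S.cT _) (S.dT _) (mem_TT.2 ⟨hi, rfl⟩) (mem_TT.2 ⟨hk, hJ.symm⟩) hik
  have h4 := S.le (J i)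
  have hX : a i * a k * w + 2 ≤ GG a d J (J i) + a i + a k + w := by
    unfold GG
    rw [← h1]
    omega
  obtain ⟨p, hp⟩ : ∃ p, a i = p + 2 := ⟨a i - 2, by omega⟩
  obtain ⟨q, hq⟩ : ∃ q, a k = q + 2 := ⟨a k - 2, by omega⟩
  have h5 : a i * a k = p * q + 2 * p + 2 * q + 4 := by rw [hp, hq]; ring
  have h6 : (a i - 1) * (a k - 1) = p * q + p + q + 1 := by
    rw [hp, hq, show p + 2 - 1 = p + 1 by omega, show q + 2 - 1 = q + 1 by omega]; ring
  obtain ⟨z, hz⟩ : ∃ z, w = z + 1 := ⟨w - 1, by omega⟩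
  have h7 : a i * a k * w = (p * q + 2 * p + 2 * q + 3) * z + z + (p * q + 2 * p + 2 * q + 4) := by
    rw [hz, h5]; ring
  have h8 : p * q + 3 * z ≤ (p * q + 2 * p + 2 * q + 3) * z + p * q := by
    nlinarith [Nat.zero_le (p*q*z), Nat.zero_le (p*z), Nat.zero_le (q*z)]
  refine ⟨?_, ?_, ?_⟩
  · rw [h6]; omega
  · intro l hli hlk hl hJl
    have h9 := Nat.le_of_dvd hw (h3 l (mem_TT.2 ⟨hl, hJl⟩) hli hlk)
    rw [h6]; omega
  · rcases Nat.eq_zero_or_pos z with h9 | h9
    · right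
      subst h9
      rw [hz] at h1 h3
      refine ⟨by rw [h1]; ring, ?_⟩
      intro l hl hJl
      by_contra hcon
      push Not at hcon
      have h10 := Nat.le_of_dvd (by omega) (h3 l (mem_TT.2 ⟨hl, hJl⟩) hcon.1 hcon.2)
      omega
    · left
      have h10 : (p * q + 2 * p + 2 * q + 3) * 1 ≤ (p * q + 2 * p + 2 * q + 3) * z :=
        Nat.mul_le_mul_left _ h9
      omega

omit S [Fintype κ] [DecidableEq κ] in
/-- the least multiple of `a i` which is a combination of the others -/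
theorem exists_least {C : Finset (Fin N)} (hC : Minimal' a u C) (ha : ∀ i ∈ C, 0 < a i) :
    ∃ c : Fin N → ℕ, (∀ i ∈ C, 0 < c i ∧ c i ≤ u i) ∧
      (∀ i ∈ C, ∀ x : ℕ, 0 < x → x < c i → ∀ m : Fin N → ℕ,
        ∑ k ∈ C.erase i, m k * a k ≠ x * a i) ∧ Minimal' a c C := by
  classical
  have hex : ∀ i ∈ C, ∃ x : ℕ, 0 < x ∧ ∃ m : Fin N → ℕ, ∑ k ∈ C.erase i, m k * a k = x * a i := by
    intro i hi
    obtain ⟨m, hm, k, hk, hki, hmk⟩ := hC.1.2 i hi
    rw [← Finset.add_sum_erase _ _ hi] at hm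
    have h1 : m k * a k ≤ ∑ x ∈ C.erase i, m x * a x := Finset.single_le_sum
      (f := fun x => m x * a x) (fun _ _ => Nat.zero_le _) (Finset.mem_erase.2 ⟨hki, hk⟩)
    have h2 : 0 < m k * a k := Nat.mul_pos (Nat.pos_of_ne_zero hmk) (ha k hk)
    have h3 : m i < u i := by
      by_contra hcon
      push Not at hcon
      have : u i * a i ≤ m i * a i := Nat.mul_le_mul_right _ hcon
      omega
    refine ⟨u i - m i, by omega, m, ?_⟩
    have h4 : (u i - m i) * a i + m i * a i = u i * a i := by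
      rw [← add_mul, Nat.sub_add_cancel h3.le]
    omega
  have hex' : ∀ i ∈ C, ∃ x : ℕ, (0 < x ∧ ∃ m : Fin N → ℕ, ∑ k ∈ C.erase i, m k * a k = x * a i) ∧
      x ≤ u i := by
    intro i hi
    obtain ⟨m, hm, k, hk, hki, hmk⟩ := hC.1.2 i hi
    rw [← Finset.add_sum_erase _ _ hi] at hm
    have h1 : m k * a k ≤ ∑ x ∈ C.erase i, m x * a x := Finset.single_le_sum
      (f := fun x => m x * a x) (fun _ _ => Nat.zero_le _) (Finset.mem_erase.2 ⟨hki, hk⟩)
    have h2 : 0 < m k * a k := Nat.mul_pos (Nat.pos_of_ne_zero hmk) (ha k hk)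
    have h3 : m i < u i := by
      by_contra hcon
      push Not at hcon
      have : u i * a i ≤ m i * a i := Nat.mul_le_mul_right _ hcon
      omega
    refine ⟨u i - m i, ⟨by omega, m, ?_⟩, by omega⟩
    have h4 : (u i - m i) * a i + m i * a i = u i * a i := by
      rw [← add_mul, Nat.sub_add_cancel h3.le]
    omega
  set c : Fin N → ℕ := fun i => if h : i ∈ C then Nat.find (hex i h) else 0 with hc
  have hci : ∀ i (h : i ∈ C), c i = Nat.find (hex i h) := fun i h => by
    simp only [hc]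
    rw [dif_pos h]
  have hcle : ∀ i ∈ C, c i ≤ u i := by
    intro i hi
    obtain ⟨x, hx, hxu⟩ := hex' i hi
    rw [hci i hi]
    exact (Nat.find_min' (hex i hi) hx).trans hxu
  refine ⟨c, fun i hi => ⟨?_, hcle i hi⟩, ?_, ?_, ?_⟩
  · rw [hci i hi]
    exact (Nat.find_spec (hex i hi)).1
  · intro i hi x hx hxc m hm
    rw [hci i hi] at hxc
    exact Nat.find_min (hex i hi) hxc ⟨hx, m, hm⟩
  · refine ⟨hC.1.1, fun i hi => ?_⟩
    obtain ⟨h1, m, hm⟩ := Nat.find_spec (hex i hi)
    rw [← hci i hi] at h1 hm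
    have h0 : ∑ k ∈ C, (if k = i then 0 else m k) * a k = c i * a i := by
      rw [← hm, ← Finset.add_sum_erase _ _ hi, if_pos rfl, zero_mul, zero_add]
      exact Finset.sum_congr rfl fun x hx => by rw [if_neg (Finset.ne_of_mem_erase hx)]
    refine ⟨fun k => if k = i then 0 else m k, h0, ?_⟩
    by_contra hcon
    push Not at hcon
    have h2 : ∑ k ∈ C, (if k = i then 0 else m k) * a k = 0 := by
      refine Finset.sum_eq_zero fun k hk => ?_
      by_cases hki : k = i
      · rw [if_pos hki, zero_mul]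
      · rw [hcon k hk hki, zero_mul]
    rw [h2] at h0
    have := Nat.mul_pos h1 (ha i hi)
    omega
  · intro U hU hcl
    refine hC.2 U hU ⟨hcl.1, fun i hi => ?_⟩
    obtain ⟨m, hm, k, hk, hki, hmk⟩ := hcl.2 i hi
    refine ⟨fun x => m x + if x = i then u i - c i else 0, ?_, k, hk, hki, ?_⟩
    · simp only [add_mul, Finset.sum_add_distrib, ite_mul, zero_mul, Finset.sum_ite_eq']
      rw [if_pos hi, hm, ← add_mul, Nat.add_sub_cancel' (hcle i (hU hi))]
    · show m k + _ ≠ 0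
      omega

omit S [Fintype κ] [DecidableEq κ] in
/-- the number of small multiples of the other weights -/
theorem count_le {c : Fin N → ℕ} {C : Finset (Fin N)} (ha : ∀ i ∈ C, 1 < a i)
    (hcop : ∀ i ∈ C, ∀ k ∈ C, i ≠ k → Nat.Coprime (a i) (a k))
    (hmin : ∀ i ∈ C, ∀ x : ℕ, 0 < x → x < c i → ∀ m : Fin N → ℕ,
        ∑ k ∈ C.erase i, m k * a k ≠ x * a i) {l : Fin N} (hl : l ∈ C) :
    ∑ k ∈ C.erase l, (c k - 1) + 1 ≤ a l := by
  classical
  -- a multiple of `a i` plus a multiple of `a l` is not a small multiple of `a m`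
  have key : ∀ i ∈ C.erase l, ∀ m ∈ C.erase l, ∀ x y : ℕ, 0 < x → x < c m → y < c i →
      y * a i ≤ x * a m → (x * a m) % a l = (y * a i) % a l → (i ≠ m ∨ y < x) → False := by
    intro i hi m hm x y hx hxm hyi hle hmod hne
    have hiC := Finset.mem_of_mem_erase hi
    have hmC := Finset.mem_of_mem_erase hm
    have hil := Finset.ne_of_mem_erase hi
    have hml := Finset.ne_of_mem_erase hm
    obtain ⟨q, hq⟩ : a l ∣ x * a m - y * a i := (Nat.modEq_iff_dvd' hle).1 hmod.symm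
    have hq' : x * a m = y * a i + q * a l := by
      rw [mul_comm q]
      omega
    by_cases him : i = m
    · subst him
      have hyx : y < x := hne.resolve_left (fun h => h rfl)
      refine hmin i hiC (x - y) (by omega) (by omega) (fun k => if k = l then q else 0) ?_
      have h1 : (x - y) * a i = q * a l := by
        have : (x - y) * a i + y * a i = x * a i := by rw [← add_mul, Nat.sub_add_cancel hyx.le]
        omega
      rw [h1]
      simp [Finset.sum_ite_eq', hl, hil.symm]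
    · refine hmin m hmC x hx hxm (fun k => (if k = i then y else 0) + if k = l then q else 0) ?_
      simp only [add_mul, Finset.sum_add_distrib, ite_mul, zero_mul, Finset.sum_ite_eq']
      rw [if_pos (Finset.mem_erase.2 ⟨him, hiC⟩), if_pos (Finset.mem_erase.2 ⟨hml.symm, hl⟩)]
      exact hq'.symm
  set P := (C.erase l).sigma (fun k => Finset.Ico 1 (c k)) with hP
  have hcard : P.card = ∑ k ∈ C.erase l, (c k - 1) := by
    rw [hP, Finset.card_sigma]
    exact Finset.sum_congr rfl fun k _ => by rw [Nat.card_Ico]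
  have hal := ha l hl
  have h1 : P.card ≤ ((Finset.range (a l)).erase 0).card := by
    refine Finset.card_le_card_of_injOn (fun z => (z.2 * a z.1) % a l) ?_ ?_
    · rintro ⟨m, x⟩ hz
      have hz' : (⟨m, x⟩ : Σ _ : Fin N, ℕ) ∈ P := hz
      rw [hP, Finset.mem_sigma, Finset.mem_Ico] at hz'
      obtain ⟨hm, hx1, hx2⟩ := hz'
      simp only at hx1 hx2 hm
      show (x * a m) % a l ∈ (Finset.range (a l)).erase 0
      rw [Finset.mem_erase, Finset.mem_range]
      refine ⟨fun h => ?_, Nat.mod_lt _ (by omega)⟩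
      refine key m hm m hm x 0 hx1 hx2 (by omega) (by simp) ?_ (Or.inr hx1)
      rw [h, zero_mul, Nat.zero_mod]
    · rintro ⟨m, x⟩ hz ⟨m', x'⟩ hz' heq
      have hz1 : (⟨m, x⟩ : Σ _ : Fin N, ℕ) ∈ P := hz
      have hz2 : (⟨m', x'⟩ : Σ _ : Fin N, ℕ) ∈ P := hz'
      rw [hP, Finset.mem_sigma, Finset.mem_Ico] at hz1 hz2
      obtain ⟨hm, hx1, hx2⟩ := hz1
      obtain ⟨hm', hx1', hx2'⟩ := hz2
      simp only at hx1 hx2 hm hx1' hx2' hm' heq
      by_cases hmm : m = m'
      · subst hmm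
        rcases lt_trichotomy x x' with h | h | h
        · exact (key m hm m hm x' x (by omega) hx2' hx2 (Nat.mul_le_mul_right _ h.le) heq.symm
            (Or.inr h)).elim
        · rw [h]
        · exact (key m hm m hm x x' (by omega) hx2 hx2' (Nat.mul_le_mul_right _ h.le) heq
            (Or.inr h)).elim
      · exfalso
        rcases le_total (x * a m) (x' * a m') with h | h
        · exact key m hm m' hm' x' x (by omega) hx2' hx2 h heq.symm (Or.inl hmm)
        · exact key m' hm' m hm x x' (by omega) hx2 hx2' h heq (Or.inl (Ne.symm hmm))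
  rw [hcard, Finset.card_erase_of_mem (by simp; omega), Finset.card_range] at h1
  omega

end Pool.Agent.K3h99.WF
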