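import Pool.Agent.R920.WC.Main
import Pool.Agent.H61.Fu.Alg

/-!
# Reduced representations modulo the relations of a minimal closed set
-/

set_option autoImplicit false

namespace Pool.Agent.K3h99.WF

open Pool.Agent.R920.WC

variable {ι : Type*} [DecidableEq ι]

/-- every combination can be reduced modulo the relations, without changing the value of the
product of elements which satisfy the relations -/
theorem exists_reduced' {G : Type*} [CommMonoid G] {a ℓ : ι → ℕ} {C : Finset ι}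
    (ha : ∀ i ∈ C, 0 < a i) {M : ι → ι → ℕ}
    (hM : ∀ i ∈ C, ∑ k ∈ C, M i k * a k = ℓ i * a i)
    (hmin : ∀ U ⊆ C, U.Nonempty → U ≠ C → ∃ i ∈ U, ∃ k ∈ C, k ∉ U ∧ M i k ≠ 0)
    {i₀ : ι} (hi₀ : i₀ ∈ C) (z : ι → G) (hz : ∀ i ∈ C, ∏ k ∈ C, z k ^ M i k = z i ^ ℓ i)
    (m₀ : ι → ℕ) :
    ∃ m : ι → ℕ, ∑ k ∈ C, m k * a k = ∑ k ∈ C, m₀ k * a k ∧
      ∏ k ∈ C, z k ^ m k = ∏ k ∈ C, z k ^ m₀ k ∧ ∀ i ∈ C, i ≠ i₀ → m i < ℓ i := by
  classical
  obtain ⟨W, hW⟩ := exists_weights (a := a) (ℓ := ℓ) hmin hi₀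
  set s := ∑ k ∈ C, m₀ k * a k with hs
  -- bounded potential
  have hbd : ∀ m : ι → ℕ, ∑ k ∈ C, m k * a k = s → ∑ k ∈ C, m k * W k ≤ ∑ k ∈ C, s * W k := by
    intro m hm
    refine Finset.sum_le_sum fun k hk => Nat.mul_le_mul_right _ ?_
    calc m k ≤ m k * a k := Nat.le_mul_of_pos_right _ (ha k hk)
      _ ≤ ∑ k ∈ C, m k * a k := Finset.single_le_sum (f := fun k => m k * a k)
          (fun _ _ => Nat.zero_le _) hk
      _ = s := hm
  have hfin : {n | ∃ m : ι → ℕ, ∑ k ∈ C, m k * a k = s ∧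
      ∏ k ∈ C, z k ^ m k = ∏ k ∈ C, z k ^ m₀ k ∧ ∑ k ∈ C, m k * W k = n}.Finite := by
    refine Set.Finite.subset (Set.finite_le_nat (∑ k ∈ C, s * W k)) ?_
    rintro n ⟨m, hm, -, rfl⟩
    exact hbd m hm
  obtain ⟨n, ⟨m, hm, hmz, hmn⟩, hn⟩ := hfin.exists_maximal ⟨_, m₀, hs.symm, rfl, rfl⟩
  refine ⟨m, hm, hmz, fun i hi hne => ?_⟩
  by_contra hlt
  push Not at hlt
  obtain ⟨k, hk, hMk, hki, hWk⟩ := hW i hi hne
  -- the new representation
  set m' : ι → ℕ := fun x => (if x = i then m x - ℓ i else m x) + M i x with hm'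
  have e1 : ∀ g : ι → ℕ, ∑ x ∈ C, (if x = i then m x - ℓ i else m x) * g x + ℓ i * g i =
      ∑ x ∈ C, m x * g x := by
    intro g
    rw [← Finset.add_sum_erase _ _ hi,
      ← Finset.add_sum_erase (a := i) (f := fun x => m x * g x) _ hi]
    have h1 : ∑ x ∈ C.erase i, (if x = i then m x - ℓ i else m x) * g x =
        ∑ x ∈ C.erase i, m x * g x := by
      refine Finset.sum_congr rfl fun x hx => ?_
      rw [if_neg (Finset.ne_of_mem_erase hx)]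
    rw [h1, if_pos rfl]
    have h2 : (m i - ℓ i) * g i + ℓ i * g i = m i * g i := by
      rw [← add_mul, Nat.sub_add_cancel hlt]
    omega
  have e2 : ∀ g : ι → ℕ, ∑ x ∈ C, m' x * g x + ℓ i * g i =
      ∑ x ∈ C, m x * g x + ∑ x ∈ C, M i x * g x := by
    intro g
    rw [← e1 g]
    simp only [hm', add_mul, Finset.sum_add_distrib]
    ring
  have e3 : (∏ x ∈ C, z x ^ (if x = i then m x - ℓ i else m x)) * z i ^ ℓ i =
      ∏ x ∈ C, z x ^ m x := by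
    rw [← Finset.mul_prod_erase _ _ hi,
      ← Finset.mul_prod_erase (a := i) (f := fun x => z x ^ m x) _ hi]
    have h1 : ∏ x ∈ C.erase i, z x ^ (if x = i then m x - ℓ i else m x) =
        ∏ x ∈ C.erase i, z x ^ m x := by
      refine Finset.prod_congr rfl fun x hx => ?_
      rw [if_neg (Finset.ne_of_mem_erase hx)]
    rw [h1, if_pos rfl, mul_right_comm, ← pow_add, Nat.sub_add_cancel hlt]
  have e4 : ∏ x ∈ C, z x ^ m' x = ∏ x ∈ C, z x ^ m x := by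
    rw [← e3, ← hz i hi, ← Finset.prod_mul_distrib]
    refine Finset.prod_congr rfl fun x _ => ?_
    rw [← pow_add]
  have h3 : ∑ x ∈ C, m' x * a x = s := by
    have := e2 a
    rw [hM i hi, hm] at this
    omega
  have h4 : ∑ x ∈ C, m x * W x < ∑ x ∈ C, m' x * W x := by
    have := e2 W
    have h5 : M i k * W k ≤ ∑ x ∈ C, M i x * W x := Finset.single_le_sum
      (f := fun x => M i x * W x) (fun _ _ => Nat.zero_le _) hk
    have h6 : W k ≤ M i k * W k := Nat.le_mul_of_pos_left _ (Nat.pos_of_ne_zero hMk)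
    omega
  have h7 := hn ⟨m', h3, e4.trans hmz, rfl⟩ (by rw [← hmn]; exact h4.le)
  omega

/-- integers congruent to a given one -/
theorem exists_cong {p q : ℕ} (hq : 0 < q) (hc : Nat.Coprime p q) (E : ℤ) :
    ∃ t : ℕ, (q : ℤ) ∣ E - t * p := by
  obtain ⟨u, hu⟩ := Nat.exists_mul_mod_eq_of_coprime (E % q).toNat hc hq.ne'
  refine ⟨u, ?_⟩
  have hq' : (q : ℤ) ≠ 0 := by exact_mod_cast hq.ne'
  have h1 : (((E % q).toNat : ℕ) : ℤ) = E % q := Int.toNat_of_nonneg (Int.emod_nonneg _ hq')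
  have h2 : ((p : ℤ) * u) % q = (E % q) % q := by
    have := congrArg (fun n : ℕ => (n : ℤ)) hu.2
    push_cast at this
    rw [this, Int.toNat_of_nonneg (Int.emod_nonneg _ hq')]
  rw [Int.emod_emod_of_dvd _ (dvd_refl _)] at h2
  have h3 : (p : ℤ) * u ≡ E [ZMOD q] := h2
  have := (Int.modEq_iff_dvd.1 h3)
  rwa [mul_comm] at this

/-- the conductor bound, in the integers -/
theorem mem_int {a ℓ : ι → ℕ} {C : Finset ι} (ha : ∀ i ∈ C, 0 < a i) {M : ι → ι → ℕ}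
    (hM : ∀ i ∈ C, ∑ k ∈ C, M i k * a k = ℓ i * a i)
    (hmin : ∀ U ⊆ C, U.Nonempty → U ≠ C → ∃ i ∈ U, ∃ k ∈ C, k ∉ U ∧ M i k ≠ 0)
    {i₀ i₁ : ι} (hi₀ : i₀ ∈ C) (hi₁ : i₁ ∈ C) (hcop : Nat.Coprime (a i₁) (a i₀)) {E : ℤ}
    (he : ((∑ i ∈ C.erase i₀, (ℓ i - 1) * a i : ℕ) : ℤ) < E + a i₀) :
    ∃ m : ι → ℕ, ((∑ k ∈ C, m k * a k : ℕ) : ℤ) = E := by
  classical
  obtain ⟨t, ht⟩ := exists_cong (ha i₀ hi₀) hcop E
  obtain ⟨m, hm, hlt⟩ := exists_reduced ha hM hmin hi₀ (fun k => if k = i₁ then t else 0)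
  have h1 : ∑ k ∈ C, (if k = i₁ then t else 0) * a k = t * a i₁ := by
    simp [hi₁]
  rw [h1] at hm
  set s' := ∑ k ∈ C.erase i₀, m k * a k with hs'
  have h2 : m i₀ * a i₀ + s' = t * a i₁ := by
    rw [← hm, hs']
    exact Finset.add_sum_erase C (fun k => m k * a k) hi₀
  have h4 : s' ≤ ∑ i ∈ C.erase i₀, (ℓ i - 1) * a i := by
    refine Finset.sum_le_sum fun i hi => Nat.mul_le_mul_right _ ?_
    have := hlt i (Finset.mem_of_mem_erase hi) (Finset.ne_of_mem_erase hi)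
    omega
  have h3 : (a i₀ : ℤ) ∣ E - s' := by
    have h5 : E - s' = (E - t * a i₁) + (m i₀ : ℤ) * a i₀ := by
      have : ((m i₀ * a i₀ + s' : ℕ) : ℤ) = (t * a i₁ : ℕ) := by rw [h2]
      push_cast at this
      linarith
    rw [h5]
    exact dvd_add ht (Dvd.intro_left _ rfl)
  obtain ⟨q, hq⟩ := h3
  have ha0 : (0 : ℤ) < a i₀ := by exact_mod_cast ha i₀ hi₀
  have h4' : (s' : ℤ) ≤ ((∑ i ∈ C.erase i₀, (ℓ i - 1) * a i : ℕ) : ℤ) := by exact_mod_cast h4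
  have hq0 : 0 ≤ q := by
    by_contra hcon
    push Not at hcon
    have : (a i₀ : ℤ) * q ≤ a i₀ * (-1) := mul_le_mul_of_nonneg_left (by omega) ha0.le
    linarith
  obtain ⟨q', rfl⟩ := Int.eq_ofNat_of_zero_le hq0
  refine ⟨fun k => if k = i₀ then q' else m k, ?_⟩
  rw [← Finset.add_sum_erase _ _ hi₀]
  have h8 : ∑ k ∈ C.erase i₀, (if k = i₀ then q' else m k) * a k = s' := by
    rw [hs']
    refine Finset.sum_congr rfl fun x hx => ?_
    rw [if_neg (Finset.ne_of_mem_erase hx)]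
  rw [h8]
  show (((if i₀ = i₀ then q' else m i₀) * a i₀ + s' : ℕ) : ℤ) = E
  rw [if_pos rfl]
  push_cast
  linarith

/-- elements of a group with the relations and trivial products in degree `e` -/
theorem one_step {G : Type*} [CommGroup G] {a ℓ : ι → ℕ} {C : Finset ι}
    (ha : ∀ i ∈ C, 0 < a i) {M : ι → ι → ℕ}
    (hM : ∀ i ∈ C, ∑ k ∈ C, M i k * a k = ℓ i * a i)
    (hmin : ∀ U ⊆ C, U.Nonempty → U ≠ C → ∃ i ∈ U, ∃ k ∈ C, k ∉ U ∧ M i k ≠ 0)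
    {i₀ : ι} (hi₀ : i₀ ∈ C) (z : ι → G) (hz : ∀ i ∈ C, ∏ k ∈ C, z k ^ M i k = z i ^ ℓ i) {e : ℕ}
    (he : ∑ i ∈ C.erase i₀, (ℓ i - 1) * a i < e + a i₀)
    (hrel : ∀ m : ι → ℕ, ∑ k ∈ C, m k * a k = e → ∏ k ∈ C, z k ^ m k = 1)
    (m₀ : ι → ℕ) (hm₀ : (a i₀ : ℤ) ∣ e - ((∑ k ∈ C, m₀ k * a k : ℕ) : ℤ)) :
    ∃ x y : ℕ, (∏ k ∈ C, z k ^ m₀ k) * z i₀ ^ y = z i₀ ^ x ∧
      x * a i₀ + e = y * a i₀ + ∑ k ∈ C, m₀ k * a k := by
  classical
  obtain ⟨m, hm, hmz, hlt⟩ := exists_reduced' ha hM hmin hi₀ z hz m₀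
  set s' := ∑ k ∈ C.erase i₀, m k * a k with hs'
  have h2 : m i₀ * a i₀ + s' = ∑ k ∈ C, m₀ k * a k := by
    rw [← hm, hs']
    exact Finset.add_sum_erase C (fun k => m k * a k) hi₀
  have h4 : s' ≤ ∑ i ∈ C.erase i₀, (ℓ i - 1) * a i := by
    refine Finset.sum_le_sum fun i hi => Nat.mul_le_mul_right _ ?_
    have := hlt i (Finset.mem_of_mem_erase hi) (Finset.ne_of_mem_erase hi)
    omega
  have h3 : (a i₀ : ℤ) ∣ e - s' := by
    have h5 : (e : ℤ) - s' = (e - ((∑ k ∈ C, m₀ k * a k : ℕ) : ℤ)) + (m i₀ : ℤ) * a i₀ := by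
      rw [← h2]
      push_cast
      ring
    rw [h5]
    exact dvd_add hm₀ (Dvd.intro_left _ rfl)
  obtain ⟨q, hq⟩ := h3
  have ha0 : (0 : ℤ) < a i₀ := by exact_mod_cast ha i₀ hi₀
  have h4' : (s' : ℤ) < e + a i₀ := by exact_mod_cast (lt_of_le_of_lt h4 he)
  have hq0 : 0 ≤ q := by
    by_contra hcon
    push Not at hcon
    have : (a i₀ : ℤ) * q ≤ a i₀ * (-1) := mul_le_mul_of_nonneg_left (by omega) ha0.le
    linarith
  obtain ⟨q', rfl⟩ := Int.eq_ofNat_of_zero_le hq0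
  have hq' : q' * a i₀ + s' = e := by
    have : ((q' * a i₀ + s' : ℕ) : ℤ) = e := by
      push_cast
      linarith
    exact_mod_cast this
  have h5 := hrel (fun k => if k = i₀ then q' else m k) (by
    rw [← Finset.add_sum_erase _ _ hi₀]
    have h8 : ∑ k ∈ C.erase i₀, (if k = i₀ then q' else m k) * a k = s' := by
      rw [hs']
      refine Finset.sum_congr rfl fun x hx => ?_
      rw [if_neg (Finset.ne_of_mem_erase hx)]
    rw [h8, if_pos rfl, hq'])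
  rw [← Finset.mul_prod_erase _ _ hi₀, if_pos rfl] at h5
  have h8 : ∏ k ∈ C.erase i₀, z k ^ (if k = i₀ then q' else m k) = ∏ k ∈ C.erase i₀, z k ^ m k :=
    Finset.prod_congr rfl fun x hx => by rw [if_neg (Finset.ne_of_mem_erase hx)]
  rw [h8] at h5
  refine ⟨m i₀, q', ?_, ?_⟩
  · rw [← hmz, ← Finset.mul_prod_erase _ _ hi₀, mul_assoc, mul_comm _ (z i₀ ^ q'), h5, mul_one]
  · rw [← h2, ← hq']
    ring

/-- products of the same degree are equal -/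
theorem eq_of_wt {G : Type*} [CommGroup G] {a ℓ : ι → ℕ} {C : Finset ι}
    (ha : ∀ i ∈ C, 0 < a i) {M : ι → ι → ℕ}
    (hM : ∀ i ∈ C, ∑ k ∈ C, M i k * a k = ℓ i * a i)
    (hmin : ∀ U ⊆ C, U.Nonempty → U ≠ C → ∃ i ∈ U, ∃ k ∈ C, k ∉ U ∧ M i k ≠ 0)
    {i₀ i₁ : ι} (hi₀ : i₀ ∈ C) (hi₁ : i₁ ∈ C) (hcop : Nat.Coprime (a i₁) (a i₀))
    (z : ι → G) (hz : ∀ i ∈ C, ∏ k ∈ C, z k ^ M i k = z i ^ ℓ i) {e : ℕ}
    (he : ∑ i ∈ C.erase i₀, (ℓ i - 1) * a i < e + a i₀)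
    (hrel : ∀ m : ι → ℕ, ∑ k ∈ C, m k * a k = e → ∏ k ∈ C, z k ^ m k = 1)
    (p q : ι → ℕ) (hpq : ∑ k ∈ C, p k * a k = ∑ k ∈ C, q k * a k) :
    ∏ k ∈ C, z k ^ p k = ∏ k ∈ C, z k ^ q k := by
  classical
  obtain ⟨t, ht⟩ := exists_cong (ha i₀ hi₀) hcop ((e : ℤ) - ((∑ k ∈ C, p k * a k : ℕ) : ℤ))
  have key : ∀ r : ι → ℕ, ∑ k ∈ C, (r k + if k = i₁ then t else 0) * a k =
      ∑ k ∈ C, r k * a k + t * a i₁ := by
    intro r
    simp only [add_mul, Finset.sum_add_distrib, ite_mul, zero_mul, Finset.sum_ite_eq']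
    rw [if_pos hi₁]
  have key2 : ∀ r : ι → ℕ, ∏ k ∈ C, z k ^ (r k + if k = i₁ then t else 0) =
      (∏ k ∈ C, z k ^ r k) * z i₁ ^ t := by
    intro r
    simp only [pow_add, Finset.prod_mul_distrib, pow_ite, pow_zero, Finset.prod_ite_eq']
    rw [if_pos hi₁]
  obtain ⟨x, y, h1, h2⟩ := one_step ha hM hmin hi₀ z hz he hrel
    (fun k => p k + if k = i₁ then t else 0) (by
      rw [key]
      push_cast at ht ⊢
      rw [← sub_sub]
      exact ht)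
  obtain ⟨x', y', h1', h2'⟩ := one_step ha hM hmin hi₀ z hz he hrel
    (fun k => q k + if k = i₁ then t else 0) (by
      rw [key, ← hpq]
      push_cast at ht ⊢
      rw [← sub_sub]
      exact ht)
  rw [key] at h2
  rw [key, ← hpq] at h2'
  rw [key2] at h1 h1'
  have h3 : x + y' = x' + y := by
    have h4 : (x + y') * a i₀ = (x' + y) * a i₀ := by
      rw [add_mul, add_mul]
      omega
    exact Nat.eq_of_mul_eq_mul_right (ha i₀ hi₀) h4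
  have h4 : (∏ k ∈ C, z k ^ p k) * (z i₁ ^ t * z i₀ ^ (y + y')) =
      (∏ k ∈ C, z k ^ q k) * (z i₁ ^ t * z i₀ ^ (y + y')) := by
    calc (∏ k ∈ C, z k ^ p k) * (z i₁ ^ t * z i₀ ^ (y + y'))
        = ((∏ k ∈ C, z k ^ p k) * z i₁ ^ t * z i₀ ^ y) * z i₀ ^ y' := by
          rw [pow_add]
          simp only [mul_assoc]
      _ = z i₀ ^ (x + y') := by rw [h1, pow_add]
      _ = z i₀ ^ (x' + y) := by rw [h3]
      _ = ((∏ k ∈ C, z k ^ q k) * z i₁ ^ t * z i₀ ^ y') * z i₀ ^ y := by rw [h1', pow_add]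
      _ = (∏ k ∈ C, z k ^ q k) * (z i₁ ^ t * z i₀ ^ (y + y')) := by
          rw [pow_add, mul_comm (z i₀ ^ y)]
          simp only [mul_assoc]
  exact mul_right_cancel h4

/-- the common root -/
theorem exists_tau {G : Type*} [CommGroup G] {a : ι → ℕ} {C : Finset ι}
    (ha : ∀ i ∈ C, 0 < a i) {i₀ i₁ : ι} (hi₀ : i₀ ∈ C) (hi₁ : i₁ ∈ C)
    (hcop : Nat.Coprime (a i₁) (a i₀)) (z : ι → G)
    (h : ∀ p q : ι → ℕ, ∑ k ∈ C, p k * a k = ∑ k ∈ C, q k * a k →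
      ∏ k ∈ C, z k ^ p k = ∏ k ∈ C, z k ^ q k) :
    ∃ τ : G, ∀ k ∈ C, z k = τ ^ a k := by
  classical
  have s1 : ∀ (i : ι) (n : ℕ), i ∈ C → ∑ k ∈ C, (if k = i then n else 0) * a k = n * a i := by
    intro i n hi
    simp only [ite_mul, zero_mul, Finset.sum_ite_eq']
    rw [if_pos hi]
  have s2 : ∀ (i : ι) (n : ℕ), i ∈ C → ∏ k ∈ C, z k ^ (if k = i then n else 0) = z i ^ n := by
    intro i n hi
    simp only [pow_ite, pow_zero, Finset.prod_ite_eq']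
    rw [if_pos hi]
  have h1 : z i₀ ^ a i₁ = z i₁ ^ a i₀ := by
    have := h (fun k => if k = i₀ then a i₁ else 0) (fun k => if k = i₁ then a i₀ else 0) (by
      rw [s1 _ _ hi₀, s1 _ _ hi₁, mul_comm])
    rwa [s2 _ _ hi₀, s2 _ _ hi₁] at this
  obtain ⟨τ, h2, h3⟩ := Pool.Agent.H61.Fu.root hcop.symm h1
  refine ⟨τ, fun k hk => ?_⟩
  obtain ⟨t, ht⟩ := exists_cong (ha i₀ hi₀) hcop (a k : ℤ)
  obtain ⟨w, hw⟩ := ht
  -- `y * a i₁ = a k + x * a i₀`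
  have ha0 : (0 : ℤ) < a i₀ := by exact_mod_cast ha i₀ hi₀
  have ha1 : 1 ≤ a i₁ := ha i₁ hi₁
  obtain ⟨x, hx⟩ : ∃ x : ℕ, (t + a i₀ * (w.toNat)) * a i₁ = a k + x * a i₀ := by
    have h5 : 0 ≤ (w.toNat : ℤ) * a i₁ - w := by
      have h6 : w ≤ (w.toNat : ℤ) := Int.self_le_toNat w
      have h7 : (w.toNat : ℤ) * 1 ≤ (w.toNat : ℤ) * a i₁ :=
        mul_le_mul_of_nonneg_left (by exact_mod_cast ha1) (by positivity)
      linarith
    obtain ⟨x, hx⟩ := Int.eq_ofNat_of_zero_le h5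
    refine ⟨x, ?_⟩
    have h8 : (((t + a i₀ * (w.toNat)) * a i₁ : ℕ) : ℤ) = ((a k + x * a i₀ : ℕ) : ℤ) := by
      push_cast
      rw [← hx]
      linear_combination -hw
    exact_mod_cast h8
  set y := t + a i₀ * w.toNat
  have h5 := h (fun j => (if j = k then 1 else 0) + (if j = i₀ then x else 0))
    (fun j => if j = i₁ then y else 0) (by
      rw [s1 _ _ hi₁]
      simp only [add_mul, Finset.sum_add_distrib]
      rw [s1 _ _ hk, s1 _ _ hi₀, one_mul]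
      exact hx.symm)
  rw [s2 _ _ hi₁] at h5
  simp only [pow_add, Finset.prod_mul_distrib] at h5
  rw [s2 _ _ hk, s2 _ _ hi₀, pow_one, h2, h3, ← pow_mul, ← pow_mul, mul_comm (a i₁), hx, pow_add,
    mul_comm (a i₀)] at h5
  exact mul_right_cancel h5

end Pool.Agent.K3h99.WF
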