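import Pool.Agent.K3h99.WF.Alg

/-!
# Statements used in the proof of Fujita's conjecture for weighted complete intersections
-/

set_option autoImplicit false

namespace Pool.Agent.K3h99.WF

open MvPolynomial Pool.Agent.R920.WC

/-- The number of relations which cannot be realised in degree `e` is at most one. `C` is a minimal
closed set with at least three elements, and `c i` is the least positive integer such that
`c i * a i` is a combination of the other weights. -/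
def OneBad : Prop :=
  ∀ (N : ℕ) (a c : Fin N → ℕ) (C : Finset (Fin N)), (∀ i ∈ C, 1 < a i) →
    (∀ i ∈ C, ∀ k ∈ C, i ≠ k → Nat.Coprime (a i) (a k)) → 3 ≤ C.card → Minimal' a c C →
    (∀ i ∈ C, ∀ x : ℕ, 0 < x → x < c i → ∀ m : Fin N → ℕ, ∑ k ∈ C.erase i, m k * a k ≠ x * a i) →
    ∀ e : ℕ, ∑ i ∈ C, (c i - 1) * (a i - 1) < e → ∀ i ∈ C, ∀ j ∈ C, i ≠ j →
    (∀ m : Fin N → ℕ, ∑ k ∈ C, m k * a k + c i * a i ≠ e) →
    (∀ m : Fin N → ℕ, ∑ k ∈ C, m k * a k + c j * a j ≠ e) → False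

/-- Two nonzero coordinates `p`, `q` whose ratios determine the others. -/
def TwoD : Prop :=
  ∀ (N : ℕ) (κ : Type) (B : Type) (_ : CommRing B) (_ : Algebra ℂ B) (a : Fin N → ℕ)
    (d : κ → ℕ) (e : ℕ) (f : κ → MvPolynomial (Fin N) ℂ) (J : Fin N → κ) (u : Fin N → ℕ)
    (v : Fin N → ℂ) (y : Fin N → B), Sys a d f J u → Rel a e f v y →
    (∀ l, v l ≠ 0 → 1 < a l) → (∀ l, v l ≠ 0 → 1 < u l) →
    ∀ p q : Fin N, p ≠ q → v p ≠ 0 → v q ≠ 0 → IsUnit (y p) → IsUnit (y q) →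
    (∀ l, l ≠ p → l ≠ q → (v l = 0 ∧ y l = 0) ∨ a l + (a p - 1) * (a q - 1) ≤ e) →
    (∑ l ∈ Finset.univ.filter (fun l => v l ≠ 0 ∧ l ≠ p ∧ l ≠ q), (u l - 1) * (a l - 1) +
      (a p - 1) * (a q - 1) + 1 ≤ e) →
    (∃ j x, x < 2 * a q ∧ x * a p = d j ∧ coeff (Finsupp.single p x) (f j) ≠ 0) →
    ∃ T : Bˣ, ∀ l, y l = (T : B) ^ a l * algebraMap ℂ B (v l)

/-- Elimination of the coordinates with a linear equation (`u l = 1`). -/
def Elim : Prop :=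
  ∀ (N : ℕ) (κ : Type) (B : Type) (_ : CommRing B) (_ : Algebra ℂ B) (a : Fin N → ℕ)
    (d : κ → ℕ) (e : ℕ) (f : κ → MvPolynomial (Fin N) ℂ) (J : Fin N → κ) (u : Fin N → ℕ)
    (v : Fin N → ℂ) (y : Fin N → B), Sys a d f J u → Rel a e f v y → v ≠ 0 →
    ∃ (f' : κ → MvPolynomial (Fin N) ℂ) (v' : Fin N → ℂ) (y' : Fin N → B),
      Sys a d f' J u ∧ Rel a e f' v' y' ∧ v' ≠ 0 ∧
      (∀ l, 1 < a l → u l = 1 → v' l = 0 ∧ y' l = 0) ∧
      (∀ l, ¬ (1 < a l ∧ u l = 1) → v' l = v l ∧ y' l = y l)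

end Pool.Agent.K3h99.WF
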