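import Pool.Agent.K3h99.WF.Final2

/-!
# The theorem, from the three statements `OneBad`, `TwoD`, `Elim`
-/

set_option autoImplicit false

namespace Pool.Agent.K3h99.WF

open MvPolynomial Pool.Agent.H39R2.Fuj Pool.Agent.R920.WC

/-- the theorem for weighted complete intersections with pairwise coprime weights, under the
numerical condition -/
theorem theorem_main (hOB : OneBad) (hTD : TwoD) (hEl : Elim) {N c : ℕ} {a : Fin N → ℕ}
    (ha : ∀ i, 0 < a i)
    (hcop : ∀ i i', i ≠ i' → Nat.Coprime (a i) (a i')) {d : Fin c → ℕ} (hd : ∀ j, 0 < d j)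
    {f : Fin c → MvPolynomial (Fin N) ℂ} (hf : ∀ j, IsWeightedHomogeneous a (f j) (d j))
    (hX : ∀ i, 1 < a i → ∃ j, eval (Pi.single i 1 : Fin N → ℂ) (f j) ≠ 0)
    {e : ℕ} (hE : ∑ j, (d j - 1) + 1 ≤ e + ∑ i, (a i - 1)) :
    (∀ v : Fin N → ℂ, v ≠ 0 → (∀ j, eval v (f j) = 0) →
      ∃ s : MvPolynomial (Fin N) ℂ, IsWeightedHomogeneous a s e ∧ eval v s ≠ 0) ∧
    (∀ v w : Fin N → ℂ, v ≠ 0 → w ≠ 0 → (∀ j, eval v (f j) = 0) →
      (∀ j, eval w (f j) = 0) → (¬ ∃ t : ℂ, t ≠ 0 ∧ ∀ i, w i = t ^ a i * v i) →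
      ∃ s : MvPolynomial (Fin N) ℂ, IsWeightedHomogeneous a s e ∧
        eval v s = 0 ∧ eval w s ≠ 0) ∧
    (∀ v u : Fin N → ℂ, v ≠ 0 → (∀ j, eval v (f j) = 0) →
      (∀ j, ∑ i, eval v (pderiv i (f j)) * u i = 0) → (¬ ∃ τ : ℂ, ∀ i, u i = τ * (a i * v i)) →
      ∃ s : MvPolynomial (Fin N) ℂ, IsWeightedHomogeneous a s e ∧
        eval v s = 0 ∧ ∑ i, eval v (pderiv i s) * u i ≠ 0) := by
  classical
  -- a further equation `0 = 0` of degree one, to which the weights equal to one are assigned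
  set d' : Option (Fin c) → ℕ := fun o => o.elim 1 d with hd'
  set f' : Option (Fin c) → MvPolynomial (Fin N) ℂ := fun o => o.elim 0 f with hf'
  have hd0 : ∀ o, 0 < d' o := by
    rintro (_ | j)
    · exact one_pos
    · exact hd j
  have hf0 : ∀ o, IsWeightedHomogeneous a (f' o) (d' o) := by
    rintro (_ | j)
    · exact isWeightedHomogeneous_zero ℂ a 1
    · exact hf j
  have hev : ∀ w : Fin N → ℂ, (∀ j, eval w (f j) = 0) → ∀ o, eval w (f' o) = 0 := by
    rintro w hw (_ | j)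
    · exact map_zero _
    · exact hw j
  have hJex : ∀ i, ∃ o, 1 < a i → eval (Pi.single i 1 : Fin N → ℂ) (f' o) ≠ 0 := by
    intro i
    by_cases hi : 1 < a i
    · obtain ⟨j, hj⟩ := hX i hi
      exact ⟨some j, fun _ => hj⟩
    · exact ⟨none, fun h => absurd h hi⟩
  choose J hJ using hJex
  obtain ⟨u, S⟩ := exists_sys ha hcop hd0 hf0 hJ
  have hE' : ∑ o, (d' o - 1) + 1 ≤ e + ∑ i, (a i - 1) := by
    rw [Fintype.sum_option]
    exact (by omega : (1 - 1) + ∑ j, (d j - 1) + 1 ≤ e + ∑ i, (a i - 1))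
  have he1 : 1 ≤ e := by
    have := S.G1 hE' ∅
    omega
  have hb : ∀ v : Fin N → ℂ, v ≠ 0 → (∀ j, eval v (f' j) = 0) →
      ∃ s : MvPolynomial (Fin N) ℂ, IsWeightedHomogeneous a s e ∧ eval v s ≠ 0 :=
    fun v hv hfv => generated a ha hcop d' hd0 f' hf0 (fun i hi => ⟨J i, hJ i hi⟩)
      (by omega) v hv hfv
  refine ⟨fun v hv hfv => hb v hv (hev v hfv), ?_, ?_⟩
  · intro v w hv hw hfv hfw hne
    by_contra hcon
    push Not at hcon
    exact hne (points he1 hf0 (fun v y hv _ H => main_points hOB hTD hEl S hE' hv H) hb v w hv hw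
      (hev v hfv) (hev w hfw) hcon)
  · intro v u hv hfv hfu hne
    by_contra hcon
    push Not at hcon
    refine hne (tangents he1 ha hf0
      (fun v y hv hy H => main_dual hOB hTD hEl S hE' hv hy H) hb v u hv (hev v hfv) ?_ hcon)
    rintro (_ | j)
    · show ∑ i, eval v (pderiv i (0 : MvPolynomial (Fin N) ℂ)) * u i = 0
      simp
    · exact hfu j

end Pool.Agent.K3h99.WF
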